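import Pool.Agent.Lib.MP_62ba83_co.Line

set_option autoImplicit false

namespace Pool.Agent.Lib.MP_62ba83_co

open Filter Topology Complex

lemma exists_avoid (y a b : ℝ) {ε : ℝ} (hε : 0 < ε) : ∃ z, |y - z| < ε ∧ z ≠ a ∧ z ≠ b := by
  obtain ⟨z, hz, hz2⟩ := (Set.Ioo_infinite (show y < y + ε by linarith)).exists_notMem_finset {a, b}
  simp only [Finset.mem_insert, Finset.mem_singleton, not_or] at hz2
  refine ⟨z, ?_, hz2⟩
  rw [abs_lt]; constructor <;> linarith [hz.1, hz.2]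

lemma sign_split {y : ℝ} (hy : y ≠ 0) : ∃ e b : ℝ, e ^ 2 = 1 ∧ 0 < b ∧ y = e * b := by
  rcases lt_or_gt_of_ne hy with h | h
  · exact ⟨-1, -y, by norm_num, by linarith, by ring⟩
  · exact ⟨1, y, by norm_num, h, by ring⟩

lemma line_real (M : ℝ) (D E : ℂ) : Ap ({p : ℂ | p.im = 0 ∧ |p.re| ≤ M} ∪ {D, E}) := by
  apply Ap.of_near
  intro ε hε
  obtain ⟨y1, h1, h2, -⟩ := exists_avoid D.im 0 0 hε
  obtain ⟨y2, h3, h4, h5⟩ := exists_avoid E.im 0 y1 hε
  obtain ⟨e1, b, he1, hb, rfl⟩ := sign_split h2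
  obtain ⟨e2, d, he2, hd, rfl⟩ := sign_split h4
  refine ⟨_, line_core D.re E.re b d e1 e2 M hb hd he1 he2 ?_, ?_⟩
  · intro h0
    apply h5
    linear_combination (-e1) * h0 - (e2 * d) * he1
  · rintro p (hp | rfl | rfl)
    · exact ⟨p, Or.inl hp, by simpa using hε⟩
    · refine ⟨_, Or.inr (Or.inl rfl), ?_⟩
      refine lt_of_le_of_lt (Complex.norm_le_abs_re_add_abs_im _) ?_
      simpa using h1
    · refine ⟨_, Or.inr (Or.inr rfl), ?_⟩
      refine lt_of_le_of_lt (Complex.norm_le_abs_re_add_abs_im _) ?_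
      simpa using h3

theorem seg_two (A B D E : ℂ) : Ap (segment ℝ A B ∪ {D, E}) := by
  obtain ⟨ω, hω, hω2⟩ := RCLike.exists_norm_mul_eq_self (B - A)
  have hω0 : ω ≠ 0 := by intro h; rw [h] at hω; simp at hω
  refine (line_real ‖B - A‖ ((D - A) / ω) ((E - A) / ω)).iso ω A hω ?_
  rintro p (hp | rfl | rfl)
  · rw [segment_eq_image'] at hp
    obtain ⟨θ, ⟨h0, h1⟩, rfl⟩ := hp
    refine ⟨((θ * ‖B - A‖ : ℝ) : ℂ), Or.inl ⟨ofReal_im _, ?_⟩, ?_⟩
    · rw [ofReal_re, abs_of_nonneg (by positivity)]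
      exact mul_le_of_le_one_left (norm_nonneg _) h1
    · simp only [real_smul, ofReal_mul]
      have : ω * (‖B - A‖ : ℂ) = B - A := hω2
      linear_combination (-(θ : ℂ)) * this
  · exact ⟨_, Or.inr (Or.inl rfl), by field_simp; ring⟩
  · exact ⟨_, Or.inr (Or.inr rfl), by field_simp; ring⟩

lemma Ap.inv {S T : Set ℂ} (h : Ap T) (h0 : (0 : ℂ) ∈ T) {m : ℝ} (hm : 0 < m)
    (hs : ∀ p ∈ S, p = 0 ∨ ∃ q ∈ T, m ≤ ‖q‖ ∧ p = q⁻¹) : Ap S := by
  intro ε hε
  set η := min (m / 4) (ε * m ^ 2 / 4) with hη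
  have hη0 : 0 < η := lt_min (by positivity) (by positivity)
  have hη1 : η ≤ m / 4 := min_le_left _ _
  have hη2 : η ≤ ε * m ^ 2 / 4 := min_le_right _ _
  obtain ⟨X, h1, h2⟩ := h η hη0
  obtain ⟨x0, hx0, h3⟩ := h2 0 h0
  refine ⟨(fun x => (x - x0)⁻¹) '' X, ?_, ?_⟩
  · rintro _ ⟨x, hx, rfl⟩ _ ⟨y, hy, rfl⟩
    by_cases hx1 : x - x0 = 0
    · simp only [hx1, inv_zero, zero_sub, norm_neg, norm_inv]
      exact inv_mem (h1 y hy x0 hx0)
    by_cases hy1 : y - x0 = 0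
    · simp only [hy1, inv_zero, sub_zero, norm_inv]
      exact inv_mem (h1 x hx x0 hx0)
    have : (x - x0)⁻¹ - (y - x0)⁻¹ = (y - x) / ((x - x0) * (y - x0)) := by field_simp; ring
    simp only [this, norm_div, norm_mul]
    exact div_mem (h1 y hy x hx) (mul_mem (h1 x hx x0 hx0) (h1 y hy x0 hx0))
  · intro p hp
    rcases hs p hp with rfl | ⟨q, hq, hq2, rfl⟩
    · exact ⟨_, ⟨x0, hx0, rfl⟩, by simpa using hε⟩
    · obtain ⟨x, hx, h4⟩ := h2 q hq
      refine ⟨_, ⟨x, hx, rfl⟩, ?_⟩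
      have h5 : ‖q - (x - x0)‖ < 2 * η := by
        calc ‖q - (x - x0)‖ = ‖(q - x) - (0 - x0)‖ := by ring_nf
          _ ≤ ‖q - x‖ + ‖0 - x0‖ := norm_sub_le _ _
          _ < 2 * η := by linarith
      have h6 : m / 2 ≤ ‖x - x0‖ := by
        have := norm_sub_norm_le q (x - x0)
        linarith
      have hq0 : q ≠ 0 := by intro h; rw [h, norm_zero] at hq2; linarith
      have hx1 : x - x0 ≠ 0 := by intro h; rw [h, norm_zero] at h6; linarith
      have : q⁻¹ - (x - x0)⁻¹ = -(q - (x - x0)) / (q * (x - x0)) := by field_simp; ring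
      simp only [this, norm_div, norm_mul, norm_neg]
      have h7 : m * (m / 2) ≤ ‖q‖ * ‖x - x0‖ := mul_le_mul hq2 h6 (by positivity) (by positivity)
      rw [div_lt_iff₀ (lt_of_lt_of_le (by positivity) h7)]
      have := mul_le_mul_of_nonneg_left h7 hε.le
      linarith

lemma circle_core {ρ : ℝ} (hρ : 0 < ρ) {E : ℂ} (hE : E ≠ 0) :
    Ap (Metric.sphere (ρ * I) ρ ∪ {E, 0}) := by
  apply Ap.of_near
  intro ε hε
  set z : ℂ := -(1 / (2 * ρ) : ℝ) * I with hz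
  have hT : Ap ({w : ℂ | w.im = -(1 / (2 * ρ)) ∧ |w.re| ≤ 1 / ε} ∪ {E⁻¹, 0}) := by
    refine (line_real (1 / ε) (E⁻¹ - z) (0 - z)).iso 1 z norm_one ?_
    rintro p (⟨h1, h2⟩ | rfl | rfl)
    · refine ⟨p - z, Or.inl ⟨?_, ?_⟩, by ring⟩
      · simp only [hz, sub_im, h1, mul_im, neg_re, ofReal_re, I_im, neg_im, ofReal_im, I_re]; ring
      · simp only [hz, sub_re, mul_re, neg_re, ofReal_re, I_im, neg_im, ofReal_im, I_re]
        simpa using h2
    · exact ⟨_, Or.inr (Or.inl rfl), by ring⟩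
    · exact ⟨_, Or.inr (Or.inr rfl), by ring⟩
  have hE1 : 0 < ‖E⁻¹‖ := norm_pos_iff.2 (inv_ne_zero hE)
  refine ⟨{p ∈ Metric.sphere (ρ * I) ρ | ε ≤ ‖p‖} ∪ {E, 0},
    hT.inv (Or.inr (Or.inr rfl)) (lt_min (show 0 < 1 / (2 * ρ) by positivity) hE1) ?_, ?_⟩
  · rintro p (⟨h1, h2⟩ | rfl | rfl)
    · right
      have hp : 0 < ‖p‖ := by linarith
      have h3 : ‖p - ρ * I‖ ^ 2 = ρ ^ 2 := by rw [← dist_eq_norm, Metric.mem_sphere.1 h1]
      rw [Complex.sq_norm, normSq_apply] at h3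
      simp only [sub_re, sub_im, mul_re, mul_im, ofReal_re, ofReal_im, I_re, I_im] at h3
      have h4 : normSq p = 2 * ρ * p.im := by rw [normSq_apply]; linear_combination h3
      have h5 : 0 < normSq p := by rw [← Complex.sq_norm]; positivity
      have h6 : p.im ≠ 0 := by intro h; rw [h] at h4; linarith
      have h7 : (p⁻¹).im = -(1 / (2 * ρ)) := by
        rw [inv_im, h4]; field_simp
      refine ⟨p⁻¹, Or.inl ⟨h7, ?_⟩, ?_, (inv_inv p).symm⟩
      · refine (abs_re_le_norm _).trans ?_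
        rw [norm_inv, ← one_div]
        exact one_div_le_one_div_of_le hε h2
      · refine (min_le_left _ _).trans (le_trans ?_ (abs_im_le_norm _))
        rw [h7, abs_neg]; exact le_abs_self _
    · exact Or.inr ⟨_, Or.inr (Or.inl rfl), min_le_right _ _, (inv_inv _).symm⟩
    · exact Or.inl rfl
  · rintro p (hp | rfl | rfl)
    · by_cases h : ε ≤ ‖p‖
      · exact ⟨p, Or.inl ⟨hp, h⟩, by simpa using hε⟩
      · exact ⟨0, Or.inr (Or.inr rfl), by simpa using h⟩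
    · exact ⟨_, Or.inr (Or.inl rfl), by simpa using hε⟩
    · exact ⟨_, Or.inr (Or.inr rfl), by simpa using hε⟩

theorem circle_one (O E : ℂ) (ρ : ℝ) : Ap (Metric.sphere O ρ ∪ {E}) := by
  by_cases hρ : 0 < ρ
  · have key : ∀ E' : ℂ, Ap (Metric.sphere (ρ * I) ρ ∪ {E'}) := by
      intro E'
      by_cases hE : E' = 0
      · refine (circle_core hρ one_ne_zero).mono ?_
        rintro p (hp | rfl)
        · exact Or.inl hp
        · exact Or.inr (Or.inr hE)
      · refine (circle_core hρ hE).mono ?_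
        rintro p (hp | rfl)
        · exact Or.inl hp
        · exact Or.inr (Or.inl rfl)
    refine (key (E - (O - ρ * I))).iso 1 (O - ρ * I) norm_one ?_
    rintro p (hp | rfl)
    · refine ⟨p - (O - ρ * I), Or.inl ?_, by ring⟩
      rw [Metric.mem_sphere, dist_eq_norm] at hp ⊢
      rw [← hp]; congr 1; ring
    · exact ⟨_, Or.inr rfl, by ring⟩
  · refine (seg_two O O E E).mono ?_
    rintro p (hp | rfl)
    · left
      have h1 : dist p O = ρ := hp
      have h2 : dist p O = 0 := le_antisymm (by linarith) dist_nonneg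
      rw [dist_eq_zero.1 h2]
      exact left_mem_segment _ _ _
    · exact Or.inr (Or.inl rfl)

end Pool.Agent.Lib.MP_62ba83_co
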