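import Pool.Agent.Lib.MP_62ba83_co.Circle

set_option autoImplicit false

namespace Pool.Agent.Lib.MP_62ba83_co

open Filter Topology Complex ComplexConjugate

noncomputable def U (w : ℝ) : ℂ := ⟨(1 - w ^ 2) / (1 + w ^ 2), 2 * w / (1 + w ^ 2)⟩

noncomputable def Dl (ρ c : ℝ) (u v : ℂ) : ℝ :=
  2 * (ρ * (u.re * v.re + u.im * v.im) - c * (u.re * v.re - u.im * v.im))

noncomputable def Vx (ρ c : ℝ) (u v : ℂ) : ℂ := ((ρ ^ 2 - c ^ 2 : ℝ) : ℂ) * u * v / (Dl ρ c u v : ℂ)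

noncomputable def av (ρ c : ℝ) (u : ℂ) : ℂ := ρ * u - c * conj u

lemma Dl_eq (ρ c : ℝ) (u v : ℂ) :
    (Dl ρ c u v : ℂ) = ρ * (u * conj v + v * conj u) - c * (u * v + conj u * conj v) := by
  apply Complex.ext <;> simp [Dl] <;> ring

lemma Dl_comm (ρ c : ℝ) (u v : ℂ) : Dl ρ c u v = Dl ρ c v u := by unfold Dl; ring

lemma Vx_comm (ρ c : ℝ) (u v : ℂ) : Vx ρ c u v = Vx ρ c v u := by
  unfold Vx; rw [Dl_comm]; ring

lemma norm_U (w : ℝ) : ‖U w‖ = 1 := by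
  rw [Complex.norm_eq_sqrt_sq_add_sq]
  have : (U w).re ^ 2 + (U w).im ^ 2 = 1 := by
    simp only [U]; field_simp; ring
  rw [this, Real.sqrt_one]

lemma U_cont : Continuous U := by
  have : U = fun w : ℝ => (((1 - w ^ 2) / (1 + w ^ 2) : ℝ) : ℂ) + ((2 * w / (1 + w ^ 2) : ℝ) : ℂ) * I := by
    funext w
    apply Complex.ext <;> simp only [U, add_re, add_im, mul_re, mul_im, ofReal_re, ofReal_im, I_re, I_im] <;> ring
  rw [this]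
  refine (continuous_ofReal.comp (Continuous.div (by fun_prop) (by fun_prop) fun w => by positivity)).add
    ((continuous_ofReal.comp (Continuous.div (by fun_prop) (by fun_prop) fun w => by positivity)).mul
      continuous_const)

/-- good unit vectors -/
def Gd (ρ c : ℝ) (u : ℂ) : Prop := u.re ∈ K ∧ u.im ∈ K ∧ ‖u‖ = 1 ∧ ‖av ρ c u‖ ∈ K

lemma K_normR {x : ℝ} (h : x ∈ K) : ‖(x : ℂ)‖ ∈ K := by
  rw [Complex.norm_real]; exact K_abs h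

lemma Dl_K {ρ c : ℝ} {u v : ℂ} (Kρ : ρ ∈ K) (Kc : c ∈ K) (hu : Gd ρ c u) (hv : Gd ρ c v) :
    Dl ρ c u v ∈ K :=
  mul_mem K_two (sub_mem (mul_mem Kρ (add_mem (mul_mem hu.1 hv.1) (mul_mem hu.2.1 hv.2.1)))
    (mul_mem Kc (sub_mem (mul_mem hu.1 hv.1) (mul_mem hu.2.1 hv.2.1))))

lemma K_sq {ρ c : ℝ} (Kρ : ρ ∈ K) (Kc : c ∈ K) : ρ ^ 2 - c ^ 2 ∈ K :=
  sub_mem (pow_mem Kρ 2) (pow_mem Kc 2)

lemma V0_K {ρ c : ℝ} {u v : ℂ} (Kρ : ρ ∈ K) (Kc : c ∈ K) (hu : Gd ρ c u) (hv : Gd ρ c v) :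
    ‖Vx ρ c u v - 0‖ ∈ K := by
  rw [sub_zero, Vx, norm_div, norm_mul, norm_mul, hu.2.2.1, hv.2.2.1, mul_one, mul_one]
  exact div_mem (K_normR (K_sq Kρ Kc)) (K_normR (Dl_K Kρ Kc hu hv))

lemma Vc_K {ρ c : ℝ} {u v : ℂ} (Kρ : ρ ∈ K) (Kc : c ∈ K) (hu : Gd ρ c u) (hv : Gd ρ c v)
    (h : Dl ρ c u v ≠ 0) : ‖Vx ρ c u v - c‖ ∈ K := by
  have h' : (Dl ρ c u v : ℂ) ≠ 0 := ofReal_ne_zero.2 h
  have : Vx ρ c u v - c = av ρ c u * av ρ c v / (Dl ρ c u v : ℂ) := by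
    rw [Vx, div_sub' h', Dl_eq]
    congr 1
    simp only [av]; push_cast; ring
  rw [this, norm_div, norm_mul]
  exact div_mem (mul_mem hu.2.2.2 hv.2.2.2) (K_normR (Dl_K Kρ Kc hu hv))

lemma VV_K {ρ c : ℝ} {u v w : ℂ} (Kρ : ρ ∈ K) (Kc : c ∈ K) (hu : Gd ρ c u) (hv : Gd ρ c v)
    (hw : Gd ρ c w) (h : Dl ρ c u v ≠ 0) (h2 : Dl ρ c u w ≠ 0) : ‖Vx ρ c u v - Vx ρ c u w‖ ∈ K := by
  have h' : (Dl ρ c u v : ℂ) ≠ 0 := ofReal_ne_zero.2 h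
  have h2' : (Dl ρ c u w : ℂ) ≠ 0 := ofReal_ne_zero.2 h2
  have e : v * conj w - w * conj v = ((2 * (v.im * w.re - v.re * w.im) : ℝ) : ℂ) * I := by
    apply Complex.ext <;> simp <;> ring
  have : Vx ρ c u v - Vx ρ c u w = ((ρ ^ 2 - c ^ 2 : ℝ) : ℂ) * u * av ρ c u *
      (v * conj w - w * conj v) / ((Dl ρ c u v : ℂ) * (Dl ρ c u w : ℂ)) := by
    rw [Vx, Vx, div_sub_div _ _ h' h2']
    congr 1
    rw [Dl_eq, Dl_eq]
    simp only [av]; ring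
  rw [this, e, norm_div, norm_mul, norm_mul, norm_mul, norm_mul, norm_mul, hu.2.2.1, norm_I,
    mul_one, mul_one]
  exact div_mem (mul_mem (mul_mem (K_normR (K_sq Kρ Kc)) hu.2.2.2) (K_normR (mul_mem K_two
    (sub_mem (mul_mem hv.2.1 hw.1) (mul_mem hv.1 hw.2.1)))))
    (mul_mem (K_normR (Dl_K Kρ Kc hu hv)) (K_normR (Dl_K Kρ Kc hu hw)))

lemma rat_five {ρ c : ℝ} {u v w : ℂ} (Kρ : ρ ∈ K) (Kc : c ∈ K) (hu : Gd ρ c u) (hv : Gd ρ c v)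
    (hw : Gd ρ c w) (h1 : Dl ρ c u v ≠ 0) (h2 : Dl ρ c u w ≠ 0) (h3 : Dl ρ c v w ≠ 0) :
    ∀ x ∈ ({Vx ρ c u v, Vx ρ c u w, Vx ρ c v w, (c : ℂ), 0} : Set ℂ),
      ∀ y ∈ ({Vx ρ c u v, Vx ρ c u w, Vx ρ c v w, (c : ℂ), 0} : Set ℂ), ‖x - y‖ ∈ K := by
  have a12 := VV_K Kρ Kc hu hv hw h1 h2
  have a13 : ‖Vx ρ c u v - Vx ρ c v w‖ ∈ K := by
    rw [Vx_comm ρ c u v]; exact VV_K Kρ Kc hv hu hw (by rwa [Dl_comm]) h3
  have a23 : ‖Vx ρ c u w - Vx ρ c v w‖ ∈ K := by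
    rw [Vx_comm ρ c u w, Vx_comm ρ c v w]
    exact VV_K Kρ Kc hw hu hv (by rwa [Dl_comm]) (by rwa [Dl_comm])
  have a14 := Vc_K Kρ Kc hu hv h1
  have a24 := Vc_K Kρ Kc hu hw h2
  have a34 := Vc_K Kρ Kc hv hw h3
  have a15 := V0_K Kρ Kc hu hv
  have a25 := V0_K Kρ Kc hu hw
  have a35 := V0_K Kρ Kc hv hw
  have a45 : ‖(c : ℂ) - 0‖ ∈ K := by rw [sub_zero]; exact K_normR Kc
  have a0 : ∀ x : ℂ, ‖x - x‖ ∈ K := fun x => by rw [sub_self, norm_zero]; exact zero_mem _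
  rintro x (rfl | rfl | rfl | rfl | rfl) y (rfl | rfl | rfl | rfl | rfl) <;>
    first | exact a0 _ | assumption | (rw [norm_sub_rev]; assumption)

lemma Gd_U {ρ k d w s : ℝ} (Kρ : ρ ∈ K) (Kk : k ∈ K) (Kd : d ∈ K) (Kw : w ∈ K) (Ks : s ∈ K)
    (hk : k + 1 ≠ 0) (hkd : k ^ 2 = d ^ 2) (hw : 0 < w) (hs : 0 < s)
    (h : 1 / w - w = d * (s - 1 / s)) : Gd ρ (ρ * (k - 1) / (k + 1)) (U w) := by
  have K1 : 1 + w ^ 2 ∈ K := add_mem (one_mem _) (pow_mem Kw 2)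
  refine ⟨div_mem (sub_mem (one_mem _) (pow_mem Kw 2)) K1, div_mem (mul_mem K_two Kw) K1,
    norm_U w, ?_⟩
  apply norm_K (r := 2 * ρ / (k + 1) * (2 * w / (1 + w ^ 2)) * (d * (s + 1 / s) / 2))
  · exact mul_mem (mul_mem (div_mem (mul_mem K_two Kρ) (add_mem Kk (one_mem _)))
      (div_mem (mul_mem K_two Kw) K1))
      (div_mem (mul_mem Kd (add_mem Ks (div_mem (one_mem _) Ks))) K_two)
  · have e1 : (av ρ (ρ * (k - 1) / (k + 1)) (U w)).re =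
        2 * ρ / (k + 1) * (2 * w / (1 + w ^ 2)) * ((1 / w - w) / 2) := by
      simp only [av, U, sub_re, mul_re, ofReal_re, ofReal_im, conj_re, conj_im]
      field_simp; ring
    have e2 : (av ρ (ρ * (k - 1) / (k + 1)) (U w)).im =
        2 * ρ / (k + 1) * (2 * w / (1 + w ^ 2)) * k := by
      simp only [av, U, sub_im, mul_im, ofReal_re, ofReal_im, conj_re, conj_im]
      field_simp; ring
    have e3 : (d * (s + 1 / s) / 2) ^ 2 = (d * (s - 1 / s) / 2) ^ 2 + d ^ 2 := by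
      field_simp; ring
    rw [e1, e2, h, mul_pow _ (d * (s + 1 / s) / 2), e3, mul_pow, mul_pow _ k, hkd]
    ring

lemma Dl_cont {α : Type} [TopologicalSpace α] {ρ c : α → ℝ} {u v : α → ℂ} {a : α}
    (hρ : ContinuousAt ρ a) (hc : ContinuousAt c a) (hu : ContinuousAt u a)
    (hv : ContinuousAt v a) : ContinuousAt (fun x => Dl (ρ x) (c x) (u x) (v x)) a := by
  unfold Dl
  have h1 : ContinuousAt (fun x => (u x).re) a := continuous_re.continuousAt.comp hu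
  have h2 : ContinuousAt (fun x => (u x).im) a := continuous_im.continuousAt.comp hu
  have h3 : ContinuousAt (fun x => (v x).re) a := continuous_re.continuousAt.comp hv
  have h4 : ContinuousAt (fun x => (v x).im) a := continuous_im.continuousAt.comp hv
  exact continuousAt_const.mul ((hρ.mul ((h1.mul h3).add (h2.mul h4))).sub
    (hc.mul ((h1.mul h3).sub (h2.mul h4))))

lemma Vx_cont {α : Type} [TopologicalSpace α] {ρ c : α → ℝ} {u v : α → ℂ} {a : α}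
    (hρ : ContinuousAt ρ a) (hc : ContinuousAt c a) (hu : ContinuousAt u a)
    (hv : ContinuousAt v a) (h : Dl (ρ a) (c a) (u a) (v a) ≠ 0) :
    ContinuousAt (fun x => Vx (ρ x) (c x) (u x) (v x)) a := by
  unfold Vx
  exact (((continuous_ofReal.continuousAt.comp ((hρ.pow 2).sub (hc.pow 2))).mul hu).mul hv).div
    (continuous_ofReal.continuousAt.comp (Dl_cont hρ hc hu hv)) (ofReal_ne_zero.2 h)

lemma near_ev {α : Type} [TopologicalSpace α] {f : α → ℂ} {a : α} (h : ContinuousAt f a) {ε : ℝ}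
    (hε : 0 < ε) : ∀ᶠ x in 𝓝 a, ‖f a - f x‖ < ε :=
  (continuousAt_const.sub h).norm.eventually_lt continuousAt_const (by simpa using hε)

lemma conic_core {ρ c w1 w2 w3 : ℝ} (hρ : 0 < ρ) (hc : 0 ≤ c) (hne : ρ ≠ c) (hw1 : 0 ≤ w1)
    (hw2 : 0 ≤ w2) (hw3 : 0 ≤ w3) (h1 : Dl ρ c (U w1) (U w2) ≠ 0) (h2 : Dl ρ c (U w1) (U w3) ≠ 0)
    (h3 : Dl ρ c (U w2) (U w3) ≠ 0) :
    Ap {Vx ρ c (U w1) (U w2), Vx ρ c (U w1) (U w3), Vx ρ c (U w2) (U w3), (c : ℂ), 0} := by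
  intro ε hε
  have hρc : ρ - c ≠ 0 := sub_ne_zero.2 hne
  set k0 := (ρ + c) / (ρ - c) with hk0
  have hk1 : k0 + 1 ≠ 0 := by
    have : k0 + 1 = 2 * ρ / (ρ - c) := by rw [hk0]; field_simp; ring
    rw [this]; exact div_ne_zero (by positivity) hρc
  have hk2 : k0 ≠ 0 := div_ne_zero (by positivity) hρc
  have hc0 : ρ * (k0 - 1) / (k0 + 1) = c := by
    rw [div_eq_iff hk1, hk0]; field_simp; ring
  set p0 : ℝ × ℝ × ℝ × ℝ × ℝ := (ρ, k0, w1, w2, w3) with hp0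
  set cf : ℝ × ℝ × ℝ × ℝ × ℝ → ℝ := fun p => p.1 * (p.2.1 - 1) / (p.2.1 + 1) with hcf
  have c1 : ContinuousAt (fun p : ℝ × ℝ × ℝ × ℝ × ℝ => p.1) p0 := by fun_prop
  have ck : ContinuousAt (fun p : ℝ × ℝ × ℝ × ℝ × ℝ => p.2.1 + 1) p0 := by fun_prop
  have c2 : ContinuousAt cf p0 := ContinuousAt.div (by fun_prop) ck hk1
  have u1 : ContinuousAt (fun p : ℝ × ℝ × ℝ × ℝ × ℝ => U p.2.2.1) p0 :=
    U_cont.continuousAt.comp (by fun_prop)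
  have u2 : ContinuousAt (fun p : ℝ × ℝ × ℝ × ℝ × ℝ => U p.2.2.2.1) p0 :=
    U_cont.continuousAt.comp (by fun_prop)
  have u3 : ContinuousAt (fun p : ℝ × ℝ × ℝ × ℝ × ℝ => U p.2.2.2.2) p0 :=
    U_cont.continuousAt.comp (by fun_prop)
  have e0 : cf p0 = c := hc0
  have g1 : Dl p0.1 (cf p0) (U p0.2.2.1) (U p0.2.2.2.1) ≠ 0 := by rw [e0]; exact h1
  have g2 : Dl p0.1 (cf p0) (U p0.2.2.1) (U p0.2.2.2.2) ≠ 0 := by rw [e0]; exact h2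
  have g3 : Dl p0.1 (cf p0) (U p0.2.2.2.1) (U p0.2.2.2.2) ≠ 0 := by rw [e0]; exact h3
  have ev := (ck.eventually_ne hk1).and (((Dl_cont c1 c2 u1 u2).eventually_ne g1).and
    (((Dl_cont c1 c2 u1 u3).eventually_ne g2).and (((Dl_cont c1 c2 u2 u3).eventually_ne g3).and
    ((near_ev (Vx_cont c1 c2 u1 u2 g1) hε).and ((near_ev (Vx_cont c1 c2 u1 u3 g2) hε).and
    ((near_ev (Vx_cont c1 c2 u2 u3 g3) hε).and
    (near_ev (continuous_ofReal.continuousAt.comp c2) hε)))))))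
  obtain ⟨δ, hδ, H⟩ := Metric.eventually_nhds_iff.1 ev
  set T := w1 + w2 + w3 + 2 / δ + 1 with hT
  have h2δ : 0 < 2 / δ := by positivity
  have hT0 : 0 < T := by positivity
  have hT1 : 1 / T < δ / 2 := by
    rw [div_lt_iff₀ hT0]
    have : δ / 2 * (2 / δ) = 1 := by field_simp
    nlinarith
  have hT2 : 1 / T ≤ T := by
    have : 1 ≤ T := by linarith
    exact ((div_le_one hT0).2 this).trans this
  obtain ⟨e, d0, he, hd0, hk⟩ := sign_split hk2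
  obtain ⟨d, Kd, hd, hdd, P⟩ := param (b := 1) (κ := 0) (e := 1) (d0 := d0) (T := T) (η := δ / 2)
    (one_mem _) (zero_mem _) (one_mem _) one_pos (by simp) hd0 hT0 (by linarith)
  have Q : ∀ w : ℝ, 0 ≤ w → w ≤ T → ∃ w' ∈ K, ∃ s ∈ K, 0 < w' ∧ 0 < s ∧
      1 / w' - w' = d * (s - 1 / s) ∧ |w' - w| < δ := by
    intro w hw hwT
    obtain ⟨w', Kw, s, Ks, a1, a2, a3, a4, a5⟩ := P (max w (1 / T)) (le_max_right _ _)
      (max_le hwT hT2)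
    refine ⟨w', Kw, s, Ks, a1, a2, by linarith, ?_⟩
    have b1 := le_max_left w (1 / T)
    have b2 : max w (1 / T) < w + δ := max_lt (by linarith) (by linarith)
    rw [abs_lt]; constructor <;> linarith
  obtain ⟨v1, K1, s1, Ks1, a1, b1, q1, r1⟩ := Q w1 hw1 (by linarith)
  obtain ⟨v2, K2, s2, Ks2, a2, b2, q2, r2⟩ := Q w2 hw2 (by linarith)
  obtain ⟨v3, K3, s3, Ks3, a3, b3, q3, r3⟩ := Q w3 hw3 (by linarith)
  obtain ⟨ρ', Kρ, hρ1, hρ2⟩ := K_near ρ hδ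
  have Kk : e * d ∈ K := mul_mem (sign_K he).1 Kd
  have hkd : (e * d) ^ 2 = d ^ 2 := by rw [mul_pow, he, one_mul]
  obtain ⟨m0, m1, m2, m3, n1, n2, n3, n4⟩ := @H (ρ', e * d, v1, v2, v3) (by
    simp only [hp0, Prod.dist_eq, Real.dist_eq, max_lt_iff]
    refine ⟨by rw [abs_lt]; constructor <;> linarith, ?_, r1, r2, r3⟩
    rw [hk, ← mul_sub, abs_mul, (sign_K he).2, one_mul]
    linarith)
  have Kc : cf (ρ', e * d, v1, v2, v3) ∈ K :=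
    div_mem (mul_mem Kρ (sub_mem Kk (one_mem _))) (add_mem Kk (one_mem _))
  refine ⟨_, rat_five Kρ Kc (Gd_U Kρ Kk Kd K1 Ks1 m0 hkd a1 b1 q1)
    (Gd_U Kρ Kk Kd K2 Ks2 m0 hkd a2 b2 q2) (Gd_U Kρ Kk Kd K3 Ks3 m0 hkd a3 b3 q3) m1 m2 m3, ?_⟩
  simp only [Function.comp_apply, e0] at n1 n2 n3 n4
  rintro p (rfl | rfl | rfl | rfl | rfl)
  · exact ⟨_, Or.inl rfl, n1⟩
  · exact ⟨_, Or.inr (Or.inl rfl), n2⟩
  · exact ⟨_, Or.inr (Or.inr (Or.inl rfl)), n3⟩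
  · exact ⟨_, Or.inr (Or.inr (Or.inr (Or.inl rfl))), n4⟩
  · exact ⟨0, Or.inr (Or.inr (Or.inr (Or.inr rfl))), by simpa using hε⟩

end Pool.Agent.Lib.MP_62ba83_co
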