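import Pool.Agent.Lib.MP_62ba83_co.Sweep

set_option autoImplicit false

namespace Pool.Agent.Lib.MP_62ba83_co

open Filter Topology

lemma small_eps (M T η : ℝ) (hη : 0 < η) :
    ∃ ε : ℝ, 0 < ε ∧ ε ≤ 1 ∧ ε * M < 1 / 2 ∧
      T * ((1 + ε * M) / ((1 - ε * M) * (1 - ε * M)) - 1) +
        ε * ((1 + ε * M) / ((1 - ε * M) * (1 - ε * M))) < η := by
  have h1 : ∀ᶠ ε in 𝓝 (0 : ℝ), ε * M < 1 / 2 := by
    have : ContinuousAt (fun ε : ℝ => ε * M) 0 := by fun_prop
    exact this.eventually_lt continuousAt_const (by simp)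
  have h2 : ∀ᶠ ε in 𝓝 (0 : ℝ), T * ((1 + ε * M) / ((1 - ε * M) * (1 - ε * M)) - 1) +
        ε * ((1 + ε * M) / ((1 - ε * M) * (1 - ε * M))) < η := by
    have : ContinuousAt (fun ε : ℝ => T * ((1 + ε * M) / ((1 - ε * M) * (1 - ε * M)) - 1) +
        ε * ((1 + ε * M) / ((1 - ε * M) * (1 - ε * M)))) 0 := by
      have h3 : ContinuousAt (fun ε : ℝ => ((1 + ε * M) / ((1 - ε * M) * (1 - ε * M)))) 0 :=
        ContinuousAt.div (by fun_prop) (by fun_prop) (by simp)
      exact (continuousAt_const.mul (h3.sub continuousAt_const)).add (continuousAt_id.mul h3)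
    exact this.eventually_lt continuousAt_const (by simpa using hη)
  have h3 : ∀ᶠ ε in 𝓝 (0 : ℝ), ε ≤ 1 := by
    have : ∀ᶠ ε in 𝓝 (0 : ℝ), ε < 1 := eventually_lt_nhds one_pos
    exact this.mono fun _ h => h.le
  have h4 : ∀ᶠ ε in 𝓝[>] (0 : ℝ), 0 < ε := self_mem_nhdsWithin
  obtain ⟨ε, hε⟩ := (h4.and ((h3.and (h1.and h2)).filter_mono nhdsWithin_le_nhds)).exists
  exact ⟨ε, hε.1, hε.2.1, hε.2.2.1, hε.2.2.2⟩

/-- bounds for points of the curve with `1/t ≤ T` -/
lemma curve_bounds {β B T b d h s t : ℝ} (hβ : 0 < β) (hb1 : β ≤ b) (hb2 : b ≤ B) (hd1 : β ≤ d)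
    (hd2 : d ≤ B) (hh : |h| ≤ B) (hs : 0 < s) (ht : 0 < t) (hT : 1 / t ≤ T)
    (hP : OnC b d h s t) :
    1 / s ≤ 1 + B * (T + 2) / β ∧ t / s ≤ (B + B * (T + 2) * (1 + B * (T + 2) / β)) / β := by
  have hB : 0 < B := hβ.trans_le (hb1.trans hb2)
  have hb : 0 < b := hβ.trans_le hb1
  have hd : 0 < d := hβ.trans_le hd1
  have hT0 : 0 < T := lt_of_lt_of_le (by positivity) hT
  have hh1 := (abs_le.1 hh).1
  have hh2 := (abs_le.1 hh).2
  unfold OnC at hP
  have hw : 0 < 1 / t := by positivity
  have hv : 0 < 1 / s := by positivity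
  have hbw : b * (1 / t) ≤ B * T := mul_le_mul hb2 hT hw.le hB.le
  have e1 : 1 / s ≤ 1 + B * (T + 2) / β := by
    by_cases h1 : 1 ≤ s
    · have : 1 / s ≤ 1 := by rw [div_le_one hs]; exact h1
      have : 0 ≤ B * (T + 2) / β := by positivity
      linarith
    · push Not at h1
      have h2 : d * (1 / s - 1) ≤ B * (T + 2) := by nlinarith [mul_pos hb ht]
      have h3 : 1 ≤ 1 / s := by rw [le_div_iff₀ hs]; linarith
      have h4 : β * (1 / s - 1) ≤ B * (T + 2) := by nlinarith
      have h5 : 1 / s - 1 ≤ B * (T + 2) / β := by rw [le_div_iff₀ hβ]; linarith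
      linarith
  refine ⟨e1, ?_⟩
  have h6 : b * t ≤ d * s + B * (T + 2) := by nlinarith [mul_pos hd hv]
  have h7 : β * (t / s) ≤ B + B * (T + 2) * (1 / s) := by
    have : β * (t / s) ≤ b * (t / s) := mul_le_mul_of_nonneg_right hb1 (by positivity)
    have h8 : b * (t / s) = (b * t) * (1 / s) := by ring
    have h9 : (b * t) * (1 / s) ≤ (d * s + B * (T + 2)) * (1 / s) :=
      mul_le_mul_of_nonneg_right h6 hv.le
    have h10 : (d * s + B * (T + 2)) * (1 / s) = d + B * (T + 2) * (1 / s) := by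
      field_simp
    linarith
  rw [le_div_iff₀ hβ]
  have : B * (T + 2) * (1 / s) ≤ B * (T + 2) * (1 + B * (T + 2) / β) :=
    mul_le_mul_of_nonneg_left e1 (by positivity)
  linarith

lemma curve_upper {b d h s t w0 : ℝ} (hb : 0 < b) (hd : 0 < d) (hs : 0 < s) (ht : 0 < t)
    (hw0 : 0 < w0) (hT : w0 ≤ 1 / t) (hP : OnC b d h s t) :
    s ≤ 1 + (b / w0 + 2 * |h|) / d := by
  unfold OnC at hP
  have h1 : t ≤ 1 / w0 := by
    rw [le_div_iff₀ hw0]; rw [le_div_iff₀ ht] at hT; linarith
  by_cases h2 : s ≤ 1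
  · have : 0 ≤ (b / w0 + 2 * |h|) / d := by positivity
    linarith
  · push Not at h2
    have h3 : 1 / s ≤ 1 := by rw [div_le_one hs]; exact h2.le
    have h4 : b * t ≤ b / w0 := by
      have := mul_le_mul_of_nonneg_left h1 hb.le
      rwa [mul_one_div] at this
    have h5 : d * (s - 1) ≤ b / w0 + 2 * |h| := by
      have : 0 < b * (1 / t) := by positivity
      nlinarith [neg_abs_le h]
    have : s - 1 ≤ (b / w0 + 2 * |h|) / d := by rw [le_div_iff₀ hd]; linarith
    linarith

/-- uniform sweep -/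
lemma sweep {β B T η : ℝ} (hβ : 0 < β) (hβB : β ≤ B) (hT : 0 < T) (hη : 0 < η) :
    ∃ ε : ℝ, 0 < ε ∧ ∀ b d h σ r : ℝ, β ≤ b → b ≤ B → β ≤ d → d ≤ B → |h| ≤ B → 0 < σ → σ < ε →
      0 < r → r < ε → OnC b d h σ r → b ∈ K → d ∈ K → σ ∈ K → r ∈ K →
      ∀ ws, 1 / T ≤ ws → ws ≤ T →
        ∃ s ∈ K, ∃ t ∈ K, 0 < s ∧ 0 < t ∧ OnC b d h s t ∧ ws - η ≤ 1 / t ∧ 1 / t ≤ ws := by
  have hB : 0 < B := hβ.trans_le hβB
  set V := 1 + B * (T + 2) / β with hV
  set Q := (B + B * (T + 2) * V) / β with hQ
  have hV0 : 0 < V := by positivity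
  have hQ0 : 0 < Q := by positivity
  set M := V + Q + (2 * B + B * V) / β + 2 * B * T / β with hM
  have hM1 : 0 < (2 * B + B * V) / β := by positivity
  have hM2 : 0 < 2 * B * T / β := by positivity
  obtain ⟨ε, hε0, hε1, hεM, hεη⟩ := small_eps M T η hη
  refine ⟨ε, hε0, ?_⟩
  intro b d h σ r hb1 hb2 hd1 hd2 hh hσ hσε hr hrε hR Kb Kd Kσ Kr ws hws1 hws2
  have hb : 0 < b := hβ.trans_le hb1
  have hd : 0 < d := hβ.trans_le hd1
  set G : Set ℝ := {w | ∃ s ∈ K, ∃ t ∈ K, 0 < s ∧ 0 < t ∧ OnC b d h s t ∧ w = 1 / t} with hG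
  set t0 := (d + b * σ * r) / (σ * (b + d * σ * r)) with ht0
  have ht0p : 0 < t0 := by positivity
  set w0 := 1 / t0 with hw0
  have hw0p : 0 < w0 := by positivity
  have hσrε : σ * r ≤ ε := (mul_le_of_le_one_right hσ.le (by linarith)).trans hσε.le
  have hσr : σ * r ≤ 1 := hσrε.trans hε1
  have hM0 : 0 < M := by linarith
  have h0 : w0 ∈ G := by
    refine ⟨(b + d * σ * r) / (r * (d + b * σ * r)), ?_, t0, ?_, by positivity, ht0p,
      start_alg hb hd hσ hr hR, rfl⟩
    · exact div_mem (add_mem Kb (mul_mem (mul_mem Kd Kσ) Kr))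
        (mul_mem Kr (add_mem Kd (mul_mem (mul_mem Kb Kσ) Kr)))
    · exact div_mem (add_mem Kd (mul_mem (mul_mem Kb Kσ) Kr))
        (mul_mem Kσ (add_mem Kb (mul_mem (mul_mem Kd Kσ) Kr)))
  have h1 : w0 ≤ ws := by
    refine le_trans ?_ hws1
    have e : w0 = σ * (b + d * σ * r) / (d + b * σ * r) := by rw [hw0, ht0]; field_simp
    rw [e, div_le_div_iff₀ (by positivity) hT]
    have a1 : d * σ * r ≤ B := by
      rw [mul_assoc]; exact (mul_le_of_le_one_right hd.le hσr).trans hd2
    have a2 : 0 ≤ b * σ * r := by positivity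
    have a3 : ε * (2 * B * T / β) < 1 / 2 :=
      lt_of_le_of_lt (mul_le_mul_of_nonneg_left (by linarith) hε0.le) hεM
    have a4 : ε * (2 * B * T) < β / 2 := by
      have : ε * (2 * B * T / β) = ε * (2 * B * T) / β := by ring
      rw [this, div_lt_iff₀ hβ] at a3
      linarith
    have a5 : σ * (b + d * σ * r) * T ≤ ε * (2 * B) * T := by
      apply mul_le_mul_of_nonneg_right _ hT.le
      exact mul_le_mul hσε.le (by linarith) (by positivity) hε0.le
    have a6 : ε * (2 * B) * T = ε * (2 * B * T) := by ring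
    linarith
  set S := 1 + (b / w0 + 2 * |h|) / d with hS
  have hS0 : 0 < S := by positivity
  obtain ⟨w, ⟨s, Ks, t, Kt, hs, ht, hP, rfl⟩, hw1, hw2⟩ :=
    @discrete_ivt G w0 ws (σ * r / S) η (by positivity) h0 h1 (by
      rintro w ⟨s, Ks, t, Kt, hs, ht, hP, rfl⟩ hw1 hw2
      have hwT : 1 / t ≤ T := hw2.trans hws2
      obtain ⟨c1, c2⟩ := curve_bounds hβ hb1 hb2 hd1 hd2 hh hs ht hwT hP
      rw [← hV] at c1 c2
      rw [← hQ] at c2
      have c3 := curve_upper hb hd hs ht hw0p hw1 hP
      rw [← hS] at c3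
      have hv : 0 < 1 / s := by positivity
      have d1 : σ * (1 / s) ≤ ε * M := mul_le_mul hσε.le (by linarith) hv.le hε0.le
      have d2 : σ < s := by
        have : σ * (1 / s) < 1 := by linarith
        rwa [mul_one_div, div_lt_one hs] at this
      have hsσ : 0 < s - σ := sub_pos.2 d2
      have hN1 : b * (1 - ε * M) ≤ b * (1 + r * t) - d * r * (s - σ) := by
        have e : b * (1 + r * t) - d * r * (s - σ) =
            b + r * (2 * h + b * (1 / t) - d * (1 / s) + d * σ) := by
          unfold OnC at hP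
          rw [← hP]; ring
        rw [e]
        have f1 : -(2 * B + B * V) ≤ 2 * h + b * (1 / t) - d * (1 / s) + d * σ := by
          have : d * (1 / s) ≤ B * V := mul_le_mul hd2 c1 hv.le hB.le
          have : 0 < b * (1 / t) := by positivity
          have : 0 < d * σ := by positivity
          linarith [(abs_le.1 hh).1]
        have f2 : 2 * B + B * V ≤ b * M := by
          have : (2 * B + B * V) / β ≤ M := by linarith
          rw [div_le_iff₀ hβ] at this
          have := mul_le_mul_of_nonneg_left hb1 hM0.le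
          linarith
        have f3 : r * (-(b * M)) ≤ r * (2 * h + b * (1 / t) - d * (1 / s) + d * σ) :=
          mul_le_mul_of_nonneg_left (by linarith) hr.le
        have f4 : r * (b * M) ≤ ε * (b * M) :=
          mul_le_mul_of_nonneg_right hrε.le (by positivity)
        linarith
      have hεM' : 0 < 1 - ε * M := by linarith
      have hN : 0 < b * (1 + r * t) - d * r * (s - σ) := lt_of_lt_of_le (by positivity) hN1
      obtain ⟨s', Ks', t', Kt', hs', ht', hP', hw'⟩ :=
        step_alg hb hd hσ hr d2 ht hR hP hN Kb Kd Kσ Kr Ks Kt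
      refine ⟨1 / t', ⟨s', Ks', t', Kt', hs', ht', hP', rfl⟩, ?_, ?_⟩
      · rw [hw']
        have g1 : b * (1 + r * t) - d * r * (s - σ) ≤ b * (1 + r * t) := by
          have : 0 < d * r * (s - σ) := by positivity
          linarith
        have g2 : (s + σ * r * t) / ((s - σ) * t) ≤ b * (s + σ * r * t) * (1 + r * t) /
            ((s - σ) * (b * (1 + r * t) - d * r * (s - σ)) * t) := by
          rw [div_le_div_iff₀ (by positivity) (by positivity)]
          have : (s + σ * r * t) * ((s - σ) * t) * (b * (1 + r * t) - d * r * (s - σ)) ≤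
              (s + σ * r * t) * ((s - σ) * t) * (b * (1 + r * t)) :=
            mul_le_mul_of_nonneg_left g1 (by positivity)
          linarith
        refine le_trans ?_ g2
        have g3 : (s + σ * r * t) / ((s - σ) * t) = s / (s - σ) * (1 / t) + σ * r / (s - σ) := by
          field_simp
        rw [g3]
        have g4 : 1 ≤ s / (s - σ) := by rw [le_div_iff₀ hsσ]; linarith
        have g5 : σ * r / S ≤ σ * r / (s - σ) :=
          div_le_div_of_nonneg_left (by positivity) hsσ (by linarith)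
        have g6 : 0 < 1 / t := by positivity
        have g7 := mul_le_mul_of_nonneg_right g4 g6.le
        linarith
      · rw [hw']
        set L := (1 + ε * M) / ((1 - ε * M) * (1 - ε * M)) with hL
        have g1 : b * (s + σ * r * t) * (1 + r * t) /
            ((s - σ) * (b * (1 + r * t) - d * r * (s - σ)) * t) =
            (1 / t + r) * ((1 + σ * r * (t / s)) / ((1 - σ * (1 / s)) *
              ((b * (1 + r * t) - d * r * (s - σ)) / b))) := by
          have : 1 - σ * (1 / s) = (s - σ) / s := by field_simp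
          rw [this]
          field_simp
        have g2 : (1 + σ * r * (t / s)) / ((1 - σ * (1 / s)) *
              ((b * (1 + r * t) - d * r * (s - σ)) / b)) ≤ L := by
          rw [hL]
          apply div_le_div₀ (by positivity) _ (by positivity)
          · apply mul_le_mul (by linarith) _ hεM'.le (by linarith)
            rw [le_div_iff₀ hb]; linarith
          · have : σ * r * (t / s) ≤ ε * M :=
              mul_le_mul hσrε (by linarith) (by positivity) hε0.le
            linarith
        have g3 : 1 ≤ L := by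
          rw [hL, le_div_iff₀ (by positivity)]
          have : 0 < ε * M := by positivity
          have := mul_le_of_le_one_right hεM'.le (show 1 - ε * M ≤ 1 by linarith)
          linarith
        rw [g1]
        have g6 : 0 < 1 / t := by positivity
        have g4 : (1 / t + r) * ((1 + σ * r * (t / s)) / ((1 - σ * (1 / s)) *
              ((b * (1 + r * t) - d * r * (s - σ)) / b))) ≤ (1 / t + ε) * L :=
          mul_le_mul (by linarith) g2 (by
            have : 0 < 1 - σ * (1 / s) := by linarith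
            positivity) (by positivity)
        have g7 := mul_le_mul_of_nonneg_right hwT (show 0 ≤ L - 1 by linarith)
        linarith)
  exact ⟨s, Ks, t, Kt, hs, ht, hP, hw1, hw2⟩

end Pool.Agent.Lib.MP_62ba83_co
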