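import Pool.Agent.Lib.MP_62ba83_co.Conic

set_option autoImplicit false

namespace Pool.Agent.Lib.MP_62ba83_co

open Filter Topology Complex ComplexConjugate

theorem collinear_ap {S : Set ℂ} (h : Collinear ℝ S) (hb : Bornology.IsBounded S) (D E : ℂ) :
    Ap (S ∪ {D, E}) := by
  obtain ⟨p0, v, hv⟩ := (collinear_iff_exists_forall_eq_smul_vadd S).1 h
  obtain ⟨M, hM⟩ := (Metric.isBounded_iff_subset_closedBall p0).1 hb
  obtain ⟨ω, hω, hω2⟩ := Complex.exists_norm_mul_eq_self v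
  have hω0 : ω ≠ 0 := by intro h; rw [h] at hω; simp at hω
  refine (line_real M ((D - p0) / ω) ((E - p0) / ω)).iso ω p0 hω ?_
  rintro p (hp | rfl | rfl)
  · obtain ⟨r, hr⟩ := hv p hp
    have h1 := hM hp
    rw [Metric.mem_closedBall, dist_eq_norm, hr] at h1
    simp only [vadd_eq_add, add_sub_cancel_right, norm_smul, Real.norm_eq_abs] at h1
    refine ⟨((r * ‖v‖ : ℝ) : ℂ), Or.inl ⟨ofReal_im _, ?_⟩, ?_⟩
    · rw [ofReal_re, abs_mul, abs_norm]; exact h1
    · rw [hr]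
      simp only [vadd_eq_add, real_smul, ofReal_mul]
      linear_combination (-(r : ℂ)) * hω2
  · exact ⟨_, Or.inr (Or.inl rfl), by field_simp; ring⟩
  · exact ⟨_, Or.inr (Or.inr rfl), by field_simp; ring⟩

theorem cospherical_ap {S : Set ℂ} (h : EuclideanGeometry.Cospherical S) (E : ℂ) :
    Ap (S ∪ {E}) := by
  obtain ⟨O, ρ, h⟩ := h
  refine (circle_one O E ρ).mono ?_
  rintro p (hp | hp)
  · exact Or.inl (h p hp)
  · exact Or.inr hp

lemma col3 {X Y Z : ℂ} (D E : ℂ) (h : ((Y - X) * conj (Z - X)).im = 0) : Ap {X, Y, Z, D, E} := by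
  have hc : Collinear ℝ ({X, Y, Z} : Set ℂ) := by
    by_cases hYX : Y = X
    · rw [hYX, Set.insert_eq_of_mem (Set.mem_insert _ _)]; exact collinear_pair _ _ _
    · rw [collinear_iff_of_mem (p₀ := X) (Set.mem_insert _ _)]
      refine ⟨Y - X, ?_⟩
      rintro p (rfl | rfl | rfl)
      · exact ⟨0, by simp⟩
      · exact ⟨1, by simp⟩
      · have h1 : 0 < normSq (Y - X) := normSq_pos.2 (sub_ne_zero.2 hYX)
        refine ⟨((Y - X) * conj (p - X)).re / normSq (Y - X), ?_⟩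
        rw [normSq_apply] at h1 ⊢
        simp only [mul_im, conj_re, conj_im, sub_re, sub_im] at h h1
        apply Complex.ext
        · simp only [vadd_eq_add, add_re, smul_re, mul_re, conj_re, conj_im, sub_re, sub_im,
            smul_eq_mul]
          rw [div_mul_eq_mul_div, ← sub_eq_iff_eq_add, eq_div_iff h1.ne']
          linear_combination (Y.im - X.im) * h
        · simp only [vadd_eq_add, add_im, smul_im, mul_re, conj_re, conj_im, sub_re, sub_im,
            smul_eq_mul]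
          rw [div_mul_eq_mul_div, ← sub_eq_iff_eq_add, eq_div_iff h1.ne']
          linear_combination (-(Y.re - X.re)) * h
  refine (collinear_ap hc (Set.toFinite _).isBounded D E).mono ?_
  intro p hp
  simp only [Set.mem_insert_iff, Set.mem_singleton_iff, Set.mem_union] at hp ⊢
  tauto

lemma exists_U {z : ℂ} (hz : ‖z‖ = 1) : ∃ w : ℝ, 0 ≤ w ∧ z = U w ^ 2 := by
  obtain ⟨u, hu⟩ := IsAlgClosed.exists_pow_nat_eq z (show 0 < 2 by norm_num)
  have h1 : ‖u‖ = 1 := by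
    have : ‖u‖ ^ 2 = 1 := by rw [← norm_pow, hu, hz]
    nlinarith [norm_nonneg u]
  have key : ∀ u : ℂ, ‖u‖ = 1 → 0 < u.im → ∃ w : ℝ, 0 ≤ w ∧ u = U w := by
    intro u h1 h2
    have h3 : u.re ^ 2 + u.im ^ 2 = 1 := by
      have := Complex.sq_norm u
      rw [h1, normSq_apply] at this
      linarith
    have h4 : 0 < 1 + u.re := by nlinarith
    refine ⟨u.im / (1 + u.re), by positivity, ?_⟩
    apply Complex.ext
    · simp only [U]; field_simp; linear_combination (1 + u.re) * h3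
    · simp only [U]; field_simp; linear_combination h3
  rcases lt_trichotomy 0 u.im with h | h | h
  · obtain ⟨w, hw, e⟩ := key u h1 h
    exact ⟨w, hw, by rw [← e, hu]⟩
  · refine ⟨0, le_rfl, ?_⟩
    have h3 : u.re ^ 2 = 1 := by
      have := Complex.sq_norm u
      rw [h1, normSq_apply, ← h] at this
      linarith
    rw [← hu]
    apply Complex.ext
    · simp only [U, sq, mul_re, ← h]; norm_num; linarith
    · simp only [U, sq, mul_im, ← h]; norm_num
  · obtain ⟨w, hw, e⟩ := key (-u) (by rwa [norm_neg]) (by simpa using h)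
    exact ⟨w, hw, by rw [← e, neg_sq, hu]⟩

lemma mul_conj_of_norm_eq {x y : ℂ} (h : ‖x‖ = ‖y‖) : x * conj x = y * conj y := by
  rw [mul_conj, mul_conj, ← Complex.sq_norm, ← Complex.sq_norm, h]

lemma vertex {ρ c : ℝ} {u v A : ℂ} (hρ : 0 < ρ) (hu : ‖u‖ = 1) (hv : ‖v‖ = 1) (huv : u ^ 2 ≠ v ^ 2)
    (h1 : ‖A - ρ * u ^ 2‖ = ‖A - c‖) (h2 : ‖A - ρ * v ^ 2‖ = ‖A - c‖) :
    A * (Dl ρ c u v : ℂ) = ((ρ ^ 2 - c ^ 2 : ℝ) : ℂ) * u * v := by
  have hu0 : u ≠ 0 := by intro h; rw [h] at hu; simp at hu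
  have hv0 : v ≠ 0 := by intro h; rw [h] at hv; simp at hv
  have e1 := mul_conj_of_norm_eq h1
  have e2 := mul_conj_of_norm_eq h2
  rw [Dl_eq]
  simp only [map_sub, map_mul, map_pow, conj_ofReal, ← Complex.inv_eq_conj hu,
    ← Complex.inv_eq_conj hv] at e1 e2 ⊢
  have hρ' : (ρ : ℂ) ≠ 0 := ofReal_ne_zero.2 hρ.ne'
  have hd : (ρ : ℂ) * (v ^ 2 - u ^ 2) ≠ 0 := mul_ne_zero hρ' (sub_ne_zero.2 huv.symm)
  field_simp at e1 e2
  have key : A * (ρ * (u ^ 2 + v ^ 2) - c * (u ^ 2 * v ^ 2 + 1)) = (ρ ^ 2 - c ^ 2) * u ^ 2 * v ^ 2 := by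
    apply mul_left_cancel₀ hd
    linear_combination (v ^ 2 * (c - ρ * v ^ 2)) * e1 - (u ^ 2 * (c - ρ * u ^ 2)) * e2
  push_cast
  field_simp
  linear_combination key

noncomputable def rf (X Y P : ℂ) : ℂ := X + (Y - X) / conj (Y - X) * conj (P - X)

lemma conj_ne {z : ℂ} (h : z ≠ 0) : conj z ≠ 0 := by simpa using h

lemma rf_symm {X Y : ℂ} (P : ℂ) (h : Y - X ≠ 0) : rf X Y P = rf Y X P := by
  have h1 := conj_ne h
  have h2 : conj (X - Y) = -conj (Y - X) := by rw [← map_neg, neg_sub]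
  have h3 : conj (P - Y) = conj (P - X) - conj (Y - X) := by rw [← map_sub]; congr 1; ring
  unfold rf
  rw [h2, h3]
  field_simp
  ring

lemma rf_norm {X Y : ℂ} (P : ℂ) (h : Y - X ≠ 0) : ‖X - rf X Y P‖ = ‖X - P‖ := by
  have h1 : ‖Y - X‖ ≠ 0 := norm_ne_zero_iff.2 h
  unfold rf
  rw [sub_add_cancel_left, norm_neg, norm_mul, norm_div, norm_conj, norm_conj, div_self h1, one_mul,
    norm_sub_rev]

lemma im_zero_of {z : ℂ} (h : z = conj z) : z.im = 0 := by
  have := congrArg Complex.im h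
  rw [conj_im] at this
  linarith

lemma rf_fix {X Y P : ℂ} (h : Y - X ≠ 0) (h2 : rf X Y P = P) : ((Y - X) * conj (P - X)).im = 0 := by
  have h1 := conj_ne h
  apply im_zero_of
  rw [map_mul, conj_conj]
  unfold rf at h2
  field_simp at h2
  linear_combination h2

lemma rf_inj {A B C P : ℂ} (hB : B - A ≠ 0) (hC : C - A ≠ 0) (hP : P - A ≠ 0)
    (h : rf A B P = rf A C P) : ((B - A) * conj (C - A)).im = 0 := by
  have h1 := conj_ne hB
  have h2 := conj_ne hC
  have h3 := conj_ne hP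
  apply im_zero_of
  rw [map_mul, conj_conj]
  unfold rf at h
  have h4 := mul_right_cancel₀ h3 (add_left_cancel h)
  field_simp at h4
  linear_combination h4

lemma rf_isog {A B C P : ℂ} (hB : B - A ≠ 0) (hC : C - A ≠ 0)
    (h : ((P - A) * (0 - A) * conj ((B - A) * (C - A))).im = 0) : ‖rf A B P‖ = ‖rf A C P‖ := by
  have h1 := conj_ne hB
  have h2 := conj_ne hC
  have h3 := Complex.conj_eq_iff_im.2 h
  simp only [map_mul, conj_conj] at h3
  have h4 : rf A B P * conj (rf A B P) = rf A C P * conj (rf A C P) := by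
    unfold rf
    simp only [map_add, map_mul, map_div₀, conj_conj]
    have h5 : conj (0 - A) = -conj A := by simp
    rw [h5] at h3
    generalize conj (B - A) = b' at *
    generalize conj (C - A) = c' at *
    generalize conj (P - A) = p' at *
    generalize conj A = a' at *
    generalize B - A = b at *
    generalize C - A = c at *
    generalize P - A = p at *
    field_simp
    linear_combination (c * b' - b * c') * h3
  rw [mul_conj, mul_conj, ← Complex.sq_norm, ← Complex.sq_norm] at h4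
  have h5 : ‖rf A B P‖ ^ 2 = ‖rf A C P‖ ^ 2 := by exact_mod_cast h4
  exact (pow_left_inj₀ (norm_nonneg _) (norm_nonneg _) two_ne_zero).1 h5

lemma vertex2 {ρ c : ℝ} {u v A : ℂ} (hρ : 0 < ρ) (hc : 0 ≤ c) (hne : ρ ≠ c) (hu : ‖u‖ = 1)
    (hv : ‖v‖ = 1) (huv : (ρ : ℂ) * u ^ 2 ≠ ρ * v ^ 2)
    (h1 : ‖A - ρ * u ^ 2‖ = ‖A - c‖) (h2 : ‖A - ρ * v ^ 2‖ = ‖A - c‖) :
    Dl ρ c u v ≠ 0 ∧ A = Vx ρ c u v := by
  have hu0 : u ≠ 0 := by intro h; rw [h] at hu; simp at hu
  have hv0 : v ≠ 0 := by intro h; rw [h] at hv; simp at hv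
  have key := vertex hρ hu hv (fun h => huv (by rw [h])) h1 h2
  have h3 : ρ ^ 2 - c ^ 2 ≠ 0 := by
    have : ρ ^ 2 - c ^ 2 = (ρ - c) * (ρ + c) := by ring
    rw [this]; exact mul_ne_zero (sub_ne_zero.2 hne) (by positivity)
  have h4 : (Dl ρ c u v : ℂ) ≠ 0 := by
    intro h0
    rw [h0, mul_zero] at key
    exact mul_ne_zero (mul_ne_zero (ofReal_ne_zero.2 h3) hu0) hv0 key.symm
  exact ⟨ofReal_ne_zero.1 h4, by rw [Vx, eq_div_iff h4, key]⟩

lemma Dl_self {ρ : ℝ} {u v : ℂ} (hρ : 0 < ρ) (hu : ‖u‖ = 1) (hv : ‖v‖ = 1) (h : Dl ρ ρ u v = 0) :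
    u ^ 2 = 1 ∨ v ^ 2 = 1 := by
  have key : ∀ u : ℂ, ‖u‖ = 1 → u.im = 0 → u ^ 2 = 1 := by
    intro u h1 h2
    have := Complex.sq_norm u
    rw [h1, normSq_apply, h2] at this
    apply Complex.ext
    · simp only [sq, mul_re, h2, one_re]; linarith
    · simp only [sq, mul_im, h2, one_im]; ring
  have : 4 * ρ * (u.im * v.im) = 0 := by unfold Dl at h; linarith
  rcases mul_eq_zero.1 ((mul_eq_zero.1 this).resolve_left (by positivity)) with h | h
  · exact Or.inl (key u hu h)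
  · exact Or.inr (key v hv h)

lemma isog_core {A B C : ℂ} {c : ℝ} (hc : 0 ≤ c)
    (hA : ((c - A) * (0 - A) * conj ((B - A) * (C - A))).im = 0)
    (hB : ((c - B) * (0 - B) * conj ((C - B) * (A - B))).im = 0) : Ap {A, B, C, (c : ℂ), 0} := by
  by_cases n1 : ((B - A) * conj (C - A)).im = 0
  · exact col3 _ _ n1
  by_cases n2 : ((B - A) * conj (c - A)).im = 0
  · refine (col3 C 0 n2).mono ?_
    intro p hp; simp only [Set.mem_insert_iff, Set.mem_singleton_iff] at hp ⊢; tauto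
  by_cases n3 : ((C - A) * conj (c - A)).im = 0
  · refine (col3 B 0 n3).mono ?_
    intro p hp; simp only [Set.mem_insert_iff, Set.mem_singleton_iff] at hp ⊢; tauto
  by_cases n4 : ((B - A) * conj (0 - A)).im = 0
  · refine (col3 C c n4).mono ?_
    intro p hp; simp only [Set.mem_insert_iff, Set.mem_singleton_iff] at hp ⊢; tauto
  have hBA : B - A ≠ 0 := by intro h; apply n1; rw [h]; simp
  have hCA : C - A ≠ 0 := by intro h; apply n1; rw [h]; simp
  have hAB : A - B ≠ 0 := by rw [← neg_sub]; exact neg_ne_zero.2 hBA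
  have hAC : A - C ≠ 0 := by rw [← neg_sub]; exact neg_ne_zero.2 hCA
  have hCB : C - B ≠ 0 := by
    intro h; apply n1
    have : C = B := sub_eq_zero.1 h
    rw [this, mul_conj]; simp
  have hBC : B - C ≠ 0 := by rw [← neg_sub]; exact neg_ne_zero.2 hCB
  have hPA : (c : ℂ) - A ≠ 0 := by intro h; apply n2; rw [h]; simp
  have hPB : (c : ℂ) - B ≠ 0 := by
    intro h; apply n2
    have : (c : ℂ) = B := sub_eq_zero.1 h
    rw [this, mul_conj]; simp
  have hPC : (c : ℂ) - C ≠ 0 := by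
    intro h; apply n3
    have : (c : ℂ) = C := sub_eq_zero.1 h
    rw [this, mul_conj]; simp
  have hA0 : A ≠ 0 := by intro h; apply n4; rw [h]; simp
  have d1 : rf A B c ≠ rf A C c := fun h => n1 (rf_inj hBA hCA hPA h)
  have d2 : rf B C c ≠ rf B A c := fun h => n1 (by
    have := rf_inj hCB hAB hPB h
    simp only [mul_im, conj_re, conj_im, sub_re, sub_im] at this ⊢
    linear_combination this)
  have d3 : rf C A c ≠ rf C B c := fun h => n1 (by
    have := rf_inj hAC hBC hPC h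
    simp only [mul_im, conj_re, conj_im, sub_re, sub_im] at this ⊢
    linear_combination this)
  have r1 := rf_isog hBA hCA hA
  have r2 := rf_isog hCB hAB hB
  have m1 := rf_norm c hBA
  have m2 := rf_norm c hCA
  have m3 := rf_norm c hAB
  have m4 := rf_norm c hCB
  have m5 := rf_norm c hAC
  have m6 := rf_norm c hBC
  rw [rf_symm c hAB] at m3 r2 d2
  rw [rf_symm c hAC] at m5 d3
  rw [rf_symm c hBC] at m6 d3
  set ρ := ‖rf A B c‖ with hρ
  have hρ0 : 0 < ρ := by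
    rcases (norm_nonneg (rf A B c)).lt_or_eq with h | h
    · exact h
    · exfalso
      apply d1
      rw [norm_eq_zero.1 h.symm, norm_eq_zero.1 (show ‖rf A C c‖ = 0 by rw [← r1]; exact h.symm)]
  have hρ' : (ρ : ℂ) ≠ 0 := ofReal_ne_zero.2 hρ0.ne'
  have pol : ∀ z : ℂ, ‖z‖ = ρ → ∃ w : ℝ, 0 ≤ w ∧ z = ρ * U w ^ 2 := by
    intro z hz
    obtain ⟨w, hw, e⟩ := exists_U (z := z / ρ) (by
      rw [norm_div, hz, Complex.norm_real, Real.norm_eq_abs, abs_of_pos hρ0, div_self hρ0.ne'])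
    exact ⟨w, hw, by rw [← e]; field_simp⟩
  obtain ⟨w1, hw1, e1⟩ := pol _ hρ.symm
  obtain ⟨w2, hw2, e2⟩ := pol _ r1.symm
  obtain ⟨w3, hw3, e3⟩ := pol _ r2
  have hne : ρ ≠ c := by
    intro h
    have key := vertex (c := c) hρ0 (norm_U w1) (norm_U w2) (fun h => d1 (by rw [e1, e2, h]))
      (by rw [← e1]; exact m1) (by rw [← e2]; exact m2)
    rw [← h, sub_self, ofReal_zero, zero_mul, zero_mul] at key
    have h2 := ofReal_eq_zero.1 ((mul_eq_zero.1 key).resolve_left hA0)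
    rcases Dl_self hρ0 (norm_U w1) (norm_U w2) h2 with h3 | h3
    · exact n2 (rf_fix hBA (by rw [e1, h3, mul_one, h]))
    · exact n3 (rf_fix hCA (by rw [e2, h3, mul_one, h]))
  rw [e1] at m1 m3 d1 d2
  rw [e2] at m2 m5 d1 d3
  rw [e3] at m4 m6 d2 d3
  obtain ⟨x1, y1⟩ := vertex2 hρ0 hc hne (norm_U w1) (norm_U w2) d1 m1 m2
  obtain ⟨x2, y2⟩ := vertex2 hρ0 hc hne (norm_U w1) (norm_U w3) d2.symm m3 m4
  obtain ⟨x3, y3⟩ := vertex2 hρ0 hc hne (norm_U w2) (norm_U w3) d3 m5 m6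
  have := conic_core hρ0 hc hne hw1 hw2 hw3 x1 x2 x3
  rwa [← y1, ← y2, ← y3] at this

theorem isog_ap {A B C P Q : ℂ} (hA : ((P - A) * (Q - A) * conj ((B - A) * (C - A))).im = 0)
    (hB : ((P - B) * (Q - B) * conj ((C - B) * (A - B))).im = 0) : Ap {A, B, C, P, Q} := by
  obtain ⟨ω, hω, hω2⟩ := Complex.exists_norm_mul_eq_self (P - Q)
  have hω0 : ω ≠ 0 := by intro h; rw [h] at hω; simp at hω
  have hω1 : ω * conj ω = 1 := by rw [mul_conj, ← Complex.sq_norm, hω]; simp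
  have tr : ∀ X Y Z : ℂ, ((P - X) * (Q - X) * conj ((Y - X) * (Z - X))).im = 0 →
      (((‖P - Q‖ : ℝ) - (X - Q) / ω) * (0 - (X - Q) / ω) *
        conj (((Y - Q) / ω - (X - Q) / ω) * ((Z - Q) / ω - (X - Q) / ω))).im = 0 := by
    intro X Y Z h
    rw [← h]
    congr 1
    have e1 : ((‖P - Q‖ : ℝ) : ℂ) = (P - Q) / ω := by rw [eq_div_iff hω0, mul_comm]; exact hω2
    have e2 : conj ω = ω⁻¹ := (Complex.inv_eq_conj hω).symm
    have e3 : ((Y - Q) / ω - (X - Q) / ω) * ((Z - Q) / ω - (X - Q) / ω) =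
        (Y - X) * (Z - X) / ω ^ 2 := by field_simp; ring
    rw [e1, e3, map_div₀, map_pow, e2]
    field_simp
    ring
  refine (isog_core (norm_nonneg (P - Q)) (tr A B C hA) (tr B C A hB)).iso ω Q hω ?_
  rintro p (rfl | rfl | rfl | rfl | rfl)
  · exact ⟨_, Or.inl rfl, by field_simp; ring⟩
  · exact ⟨_, Or.inr (Or.inl rfl), by field_simp; ring⟩
  · exact ⟨_, Or.inr (Or.inr (Or.inl rfl)), by field_simp; ring⟩
  · exact ⟨_, Or.inr (Or.inr (Or.inr (Or.inl rfl))), by rw [hω2]; ring⟩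
  · exact ⟨0, Or.inr (Or.inr (Or.inr (Or.inr rfl))), by ring⟩

lemma inv_cond {a b c w : ℂ} (ha : a ≠ 0) (hb : b ≠ 0) (hc : c ≠ 0) (hw : w ≠ 0)
    (h : ((a - w) * b * c * conj (w * (a - b) * (a - c))).im = 0) :
    ((w⁻¹ - a⁻¹) * (0 - a⁻¹) * conj ((b⁻¹ - a⁻¹) * (c⁻¹ - a⁻¹))).im = 0 := by
  have e : (w⁻¹ - a⁻¹) * (0 - a⁻¹) * conj ((b⁻¹ - a⁻¹) * (c⁻¹ - a⁻¹)) =
      ((-(normSq (a ^ 2 * b * c * w))⁻¹ : ℝ) : ℂ) *
        ((a - w) * b * c * conj (w * (a - b) * (a - c))) := by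
    have h1 := conj_ne ha
    have h2 := conj_ne hb
    have h3 := conj_ne hc
    have h4 := conj_ne hw
    rw [ofReal_neg, ofReal_inv, ← mul_conj]
    simp only [map_mul, map_sub, map_inv₀, map_pow]
    field_simp
    ring
  rw [e, im_ofReal_mul, h, mul_zero]

theorem isoptic_ap {A B C D W : ℂ}
    (hA : ((A - W) * (B - D) * (C - D) * conj ((W - D) * (A - B) * (A - C))).im = 0)
    (hB : ((B - W) * (C - D) * (A - D) * conj ((W - D) * (B - C) * (B - A))).im = 0) :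
    Ap {A, B, C, D, W} := by
  by_cases ha : A - D = 0
  · refine (col3 (X := D) (Y := A) (Z := B) C W (by rw [ha]; simp)).mono ?_
    intro p hp; simp only [Set.mem_insert_iff, Set.mem_singleton_iff] at hp ⊢; tauto
  by_cases hb : B - D = 0
  · refine (col3 (X := D) (Y := B) (Z := A) C W (by rw [hb]; simp)).mono ?_
    intro p hp; simp only [Set.mem_insert_iff, Set.mem_singleton_iff] at hp ⊢; tauto
  by_cases hc : C - D = 0
  · refine (col3 (X := D) (Y := C) (Z := A) B W (by rw [hc]; simp)).mono ?_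
    intro p hp; simp only [Set.mem_insert_iff, Set.mem_singleton_iff] at hp ⊢; tauto
  by_cases hw : W - D = 0
  · refine (col3 (X := D) (Y := W) (Z := A) B C (by rw [hw]; simp)).mono ?_
    intro p hp; simp only [Set.mem_insert_iff, Set.mem_singleton_iff] at hp ⊢; tauto
  have h1 := inv_cond ha hb hc hw (by simpa only [sub_sub_sub_cancel_right] using hA)
  have h2 := inv_cond hb hc ha hw (by simpa only [sub_sub_sub_cancel_right] using hB)
  have pos : ∀ z : ℂ, z ≠ 0 → 0 < ‖z⁻¹‖ := fun z hz => norm_pos_iff.2 (inv_ne_zero hz)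
  have h3 : Ap {A - D, B - D, C - D, W - D, 0} := by
    refine (isog_ap h1 h2).inv (by simp) (lt_min (lt_min (pos _ ha) (pos _ hb))
      (lt_min (pos _ hc) (pos _ hw))) ?_
    rintro p (rfl | rfl | rfl | rfl | rfl)
    · exact Or.inr ⟨_, Or.inl rfl, (min_le_left _ _).trans (min_le_left _ _), (inv_inv _).symm⟩
    · exact Or.inr ⟨_, Or.inr (Or.inl rfl), (min_le_left _ _).trans (min_le_right _ _),
        (inv_inv _).symm⟩
    · exact Or.inr ⟨_, Or.inr (Or.inr (Or.inl rfl)), (min_le_right _ _).trans (min_le_left _ _),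
        (inv_inv _).symm⟩
    · exact Or.inr ⟨_, Or.inr (Or.inr (Or.inr (Or.inl rfl))),
        (min_le_right _ _).trans (min_le_right _ _), (inv_inv _).symm⟩
    · exact Or.inl rfl
  refine h3.iso 1 D norm_one ?_
  rintro p (rfl | rfl | rfl | rfl | rfl)
  · exact ⟨_, Or.inl rfl, by ring⟩
  · exact ⟨_, Or.inr (Or.inl rfl), by ring⟩
  · exact ⟨_, Or.inr (Or.inr (Or.inl rfl)), by ring⟩
  · exact ⟨0, Or.inr (Or.inr (Or.inr (Or.inr rfl))), by ring⟩
  · exact ⟨_, Or.inr (Or.inr (Or.inr (Or.inl rfl))), by ring⟩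

lemma div_im_zero {z w : ℂ} (h : (z / w).im = 0) : (z * conj w).im = 0 := by
  by_cases hw : w = 0
  · rw [hw]; simp
  · have e : z * conj w = ((normSq w : ℝ) : ℂ) * (z / w) := by
      rw [← mul_conj]; field_simp
    rw [e, im_ofReal_mul, h, mul_zero]

lemma Ap.out {S : Set ℂ} (h : Ap S) : ∀ ε : ℝ, 0 < ε → ∃ X : Set ℂ,
    (∀ x ∈ X, ∀ y ∈ X, ∃ r : ℚ, dist x y = r) ∧ ∀ p ∈ S, ∃ x ∈ X, dist p x < ε := by
  intro ε hε
  obtain ⟨X, h1, h2⟩ := h ε hε
  simp only [dist_eq_norm]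
  exact ⟨X, fun x hx y hy => mem_K.1 (h1 x hx y hy), h2⟩

end Pool.Agent.Lib.MP_62ba83_co
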