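import Pool.Agent.Lib.MP_62ba83_co.Param

set_option autoImplicit false

namespace Pool.Agent.Lib.MP_62ba83_co

open Filter Topology Complex

/-- rational approximability -/
def Ap (S : Set ℂ) : Prop :=
  ∀ ε : ℝ, 0 < ε → ∃ X : Set ℂ, (∀ x ∈ X, ∀ y ∈ X, ‖x - y‖ ∈ K) ∧ ∀ p ∈ S, ∃ x ∈ X, ‖p - x‖ < ε

lemma Ap.mono {S T : Set ℂ} (h : Ap T) (hs : S ⊆ T) : Ap S := fun ε hε =>
  let ⟨X, h1, h2⟩ := h ε hε
  ⟨X, h1, fun p hp => h2 p (hs hp)⟩

lemma Ap.iso {S T : Set ℂ} (h : Ap T) (ω z : ℂ) (hω : ‖ω‖ = 1)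
    (hs : ∀ p ∈ S, ∃ q ∈ T, p = ω * q + z) : Ap S := by
  intro ε hε
  obtain ⟨X, h1, h2⟩ := h ε hε
  refine ⟨(fun q => ω * q + z) '' X, ?_, ?_⟩
  · rintro _ ⟨x, hx, rfl⟩ _ ⟨y, hy, rfl⟩
    have : ω * x + z - (ω * y + z) = ω * (x - y) := by ring
    rw [this, norm_mul, hω, one_mul]
    exact h1 x hx y hy
  · intro p hp
    obtain ⟨q, hq, rfl⟩ := hs p hp
    obtain ⟨x, hx, h3⟩ := h2 q hq
    refine ⟨_, ⟨x, hx, rfl⟩, ?_⟩
    have : ω * q + z - (ω * x + z) = ω * (q - x) := by ring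
    rw [this, norm_mul, hω, one_mul]
    exact h3

/-- closure under approximation -/
lemma Ap.of_near {S : Set ℂ}
    (h : ∀ ε : ℝ, 0 < ε → ∃ T : Set ℂ, Ap T ∧ ∀ p ∈ S, ∃ q ∈ T, ‖p - q‖ < ε) : Ap S := by
  intro ε hε
  obtain ⟨T, hT, h1⟩ := h (ε / 2) (by linarith)
  obtain ⟨X, h2, h3⟩ := hT (ε / 2) (by linarith)
  refine ⟨X, h2, fun p hp => ?_⟩
  obtain ⟨q, hq, h4⟩ := h1 p hp
  obtain ⟨x, hx, h5⟩ := h3 q hq
  refine ⟨x, hx, ?_⟩
  calc ‖p - x‖ = ‖(p - q) + (q - x)‖ := by ring_nf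
    _ ≤ ‖p - q‖ + ‖q - x‖ := norm_add_le _ _
    _ < ε := by linarith

lemma norm_K {z : ℂ} {r : ℝ} (hr : r ∈ K) (h : z.re ^ 2 + z.im ^ 2 = r ^ 2) : ‖z‖ ∈ K := by
  have : ‖z‖ = |r| := by
    rw [← Real.sqrt_sq_eq_abs, ← h, Complex.norm_eq_sqrt_sq_add_sq]
  rw [this]; exact K_abs hr

lemma norm_lt_of {z : ℂ} {a b : ℝ} (h1 : |z.re| < a) (h2 : |z.im| < b) : ‖z‖ < a + b :=
  lt_of_le_of_lt (Complex.norm_le_abs_re_add_abs_im z) (by linarith)

lemma w_est {T η w ws : ℝ} (hT : 0 < T) (h1 : 1 / T ≤ ws) (h2 : ws - η ≤ w) (h3 : w ≤ ws)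
    (h4 : η ≤ 1 / (2 * T)) : |1 / w - w - (1 / ws - ws)| ≤ η * (1 + 2 * T ^ 2) := by
  have e : 1 / T = 2 * (1 / (2 * T)) := by field_simp
  have h5 : 1 / (2 * T) ≤ w := by linarith
  have h6 : 0 < 1 / (2 * T) := by positivity
  have hw : 0 < w := by linarith
  have hws : 0 < ws := by linarith
  have h7 : 1 / w ≤ 2 * T := by
    rw [div_le_iff₀ hw]; rw [div_le_iff₀ (by positivity)] at h5; linarith
  have h8 : 1 / ws ≤ T := by
    rw [div_le_iff₀ hws]; rw [div_le_iff₀ hT] at h1; linarith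
  have e2 : 1 / w - w - (1 / ws - ws) = (ws - w) * (1 + 1 / w * (1 / ws)) := by
    field_simp; ring
  have h9 : 1 / w * (1 / ws) ≤ 2 * T * T := mul_le_mul h7 h8 (by positivity) (by positivity)
  rw [e2, abs_of_nonneg (mul_nonneg (by linarith) (by positivity))]
  exact mul_le_mul (by linarith) (by linarith) (by positivity) (by linarith)

lemma g_range {y Y : ℝ} (h : |y| ≤ Y) :
    ∃ ws : ℝ, 1 / (Y + 1) ≤ ws ∧ ws ≤ Y + 1 ∧ 1 / ws - ws = y := by
  obtain ⟨u, hu, h1⟩ := g_surj (-y)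
  have hY : 0 ≤ Y := (abs_nonneg y).trans h
  obtain ⟨h2, h3⟩ := abs_le.1 h
  refine ⟨u, ?_, ?_, by linarith⟩
  · rw [div_le_iff₀ (by linarith)]
    by_cases h4 : 1 ≤ u
    · nlinarith
    · have : 1 / u ≤ Y + 1 := by linarith
      rw [div_le_iff₀ hu] at this
      linarith
  · by_cases h4 : 1 ≤ u
    · have : 1 / u ≤ 1 := by rw [div_le_one hu]; exact h4
      linarith
    · linarith

lemma sign_K {e : ℝ} (he : e ^ 2 = 1) : e ∈ K ∧ |e| = 1 := by
  have : (e - 1) * (e + 1) = 0 := by linear_combination he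
  rcases mul_eq_zero.1 this with h | h
  · have : e = 1 := by linarith
    rw [this]; exact ⟨one_mem _, abs_one⟩
  · have : e = -1 := by linarith
    rw [this]; exact ⟨neg_mem (one_mem _), by simp⟩

/-- a bounded piece of the real axis and two points off it -/
lemma line_core (a1 a2 b0 d0 e1 e2 M : ℝ) (hb0 : 0 < b0) (hd0 : 0 < d0) (he1 : e1 ^ 2 = 1)
    (he2 : e2 ^ 2 = 1) (hne : b0 - e1 * e2 * d0 ≠ 0) :
    Ap ({p : ℂ | p.im = 0 ∧ |p.re| ≤ M} ∪ {⟨a1, e1 * b0⟩, ⟨a2, e2 * d0⟩}) := by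
  intro ε hε
  set e := e1 * e2 with he
  have hee : e ^ 2 = 1 := by rw [he, mul_pow, he1, he2, one_mul]
  set κ0 := (a2 - a1) / (b0 - e * d0) with hκ0
  have hc : ContinuousAt (fun p : ℝ × ℝ × ℝ => (p.1 - e * p.2.1) * p.2.2) (b0, d0, κ0) := by
    fun_prop
  obtain ⟨δ, hδ, hδ2⟩ := Metric.continuousAt_iff.1 hc (ε / 2) (by linarith)
  obtain ⟨b, Kb, hb1, hb2⟩ := K_near b0 (show 0 < min δ (ε / 2) from lt_min hδ (by linarith))
  have hb : 0 < b := by linarith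
  have hm1 := min_le_left δ (ε / 2)
  have hm2 := min_le_right δ (ε / 2)
  obtain ⟨u, Ku, hu, hu1, hu2⟩ := g_near (2 * κ0) hδ
  set κ := (u - 1 / u) / 2 with hκ
  have Kκ : κ ∈ K := div_mem (sub_mem Ku (div_mem (one_mem _) Ku)) K_two
  set Y := 2 * (|M| + |a1|) / b with hY
  have hY0 : 0 ≤ Y := by positivity
  set η := min (min δ (ε / 2)) (min (1 / (2 * (Y + 1))) (ε / (b * (1 + 2 * (Y + 1) ^ 2)))) with hη
  have hη0 : 0 < η := lt_min (lt_min hδ (by linarith)) (lt_min (by positivity) (by positivity))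
  have hη1 : η ≤ min δ (ε / 2) := min_le_left _ _
  have hη2 : η ≤ 1 / (2 * (Y + 1)) := (min_le_right _ _).trans (min_le_left _ _)
  have hη3 : η ≤ ε / (b * (1 + 2 * (Y + 1) ^ 2)) := (min_le_right _ _).trans (min_le_right _ _)
  obtain ⟨d, Kd, hd, hd1, H⟩ := param (b := b) (κ := κ) (e := e) (d0 := d0) (T := Y + 1) (η := η)
    Kb Kκ (sign_K hee).1 hb (sign_K hee).2.le hd0 (by linarith) hη0
  set h := (b - e * d) * κ with hh
  have hh1 : |h - (a2 - a1)| < ε / 2 := by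
    have := @hδ2 (b, d, κ) (by
      simp only [Prod.dist_eq, Real.dist_eq, max_lt_iff, abs_lt]
      have := abs_lt.1 hd1
      refine ⟨⟨by linarith, by linarith⟩, ⟨by linarith, by linarith⟩, by linarith, by linarith⟩)
    simp only [Real.dist_eq] at this
    have e3 : (b0 - e * d0) * κ0 = a2 - a1 := by rw [hκ0]; field_simp
    rwa [e3] at this
  set G : Set ℂ := {x | ∃ w ∈ K, ∃ s ∈ K, 0 < w ∧ 0 < s ∧
    b * (1 / w - w) - d * (s - 1 / s) = 2 * h ∧ x = ⟨a1 + b * (1 / w - w) / 2, 0⟩} with hG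
  have hDE : ‖(⟨a1, e1 * b⟩ : ℂ) - ⟨a1 + h, e2 * d⟩‖ ∈ K := by
    apply norm_K (r := (b - e * d) * ((u + 1 / u) / 2))
    · exact mul_mem (sub_mem Kb (mul_mem (sign_K hee).1 Kd))
        (div_mem (add_mem Ku (div_mem (one_mem _) Ku)) K_two)
    · simp only [sub_re, sub_im]
      have e4 : ((u + 1 / u) / 2) ^ 2 = κ ^ 2 + 1 := by rw [hκ]; field_simp; ring
      rw [mul_pow, e4, hh, he]
      linear_combination (b ^ 2 - e2 ^ 2 * d ^ 2) * he1
  have hGD : ∀ x ∈ G, ‖x - ⟨a1, e1 * b⟩‖ ∈ K := by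
    rintro x ⟨w, Kw, s, Ks, hw, hs, hc, rfl⟩
    apply norm_K (r := b * ((1 / w + w) / 2))
    · exact mul_mem Kb (div_mem (add_mem (div_mem (one_mem _) Kw) Kw) K_two)
    · simp only [sub_re, sub_im]
      have : (e1 * b) ^ 2 = b ^ 2 := by rw [mul_pow, he1, one_mul]
      rw [zero_sub, neg_sq, this]
      field_simp
      ring
  have hGE : ∀ x ∈ G, ‖x - ⟨a1 + h, e2 * d⟩‖ ∈ K := by
    rintro x ⟨w, Kw, s, Ks, hw, hs, hc, rfl⟩
    apply norm_K (r := d * ((s + 1 / s) / 2))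
    · exact mul_mem Kd (div_mem (add_mem Ks (div_mem (one_mem _) Ks)) K_two)
    · simp only [sub_re, sub_im]
      have h1 : (e2 * d) ^ 2 = d ^ 2 := by rw [mul_pow, he2, one_mul]
      have h2 : a1 + b * (1 / w - w) / 2 - (a1 + h) = d * (s - 1 / s) / 2 := by linarith
      rw [zero_sub, neg_sq, h1, h2]
      field_simp
      ring
  have hGG : ∀ x ∈ G, ∀ y ∈ G, ‖x - y‖ ∈ K := by
    rintro x ⟨w, Kw, s, Ks, hw, hs, hc, rfl⟩ y ⟨w', Kw', s', Ks', hw', hs', hc', rfl⟩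
    apply norm_K (r := b * (1 / w - w) / 2 - b * (1 / w' - w') / 2)
    · exact sub_mem (div_mem (mul_mem Kb (sub_mem (div_mem (one_mem _) Kw) Kw)) K_two)
        (div_mem (mul_mem Kb (sub_mem (div_mem (one_mem _) Kw') Kw')) K_two)
    · simp only [sub_re, sub_im]; ring
  refine ⟨G ∪ {⟨a1, e1 * b⟩, ⟨a1 + h, e2 * d⟩}, ?_, ?_⟩
  · rintro x (hx | rfl | rfl) y (hy | rfl | rfl)
    · exact hGG x hx y hy
    · exact hGD x hx
    · exact hGE x hx
    · rw [norm_sub_rev]; exact hGD y hy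
    · simp only [sub_self, norm_zero]; exact zero_mem _
    · exact hDE
    · rw [norm_sub_rev]; exact hGE y hy
    · rw [norm_sub_rev]; exact hDE
    · simp only [sub_self, norm_zero]; exact zero_mem _
  · rintro p (⟨hp1, hp2⟩ | rfl | rfl)
    · have hy : |2 * (p.re - a1) / b| ≤ Y := by
        rw [hY, abs_div, abs_of_pos hb, abs_mul, abs_two]
        apply div_le_div_of_nonneg_right _ hb.le
        have := abs_sub p.re a1
        linarith [le_abs_self M]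
      obtain ⟨ws, h1, h2, h3⟩ := g_range hy
      obtain ⟨w, Kw, s, Ks, hw, hs, hc, h4, h5⟩ := H ws h1 h2
      refine ⟨_, Or.inl ⟨w, Kw, s, Ks, hw, hs, hc, rfl⟩, ?_⟩
      have h6 := w_est (by linarith) h1 h4 h5 hη2
      have h7 : |p.re - (a1 + b * (1 / w - w) / 2)| < ε := by
        have e5 : p.re - (a1 + b * (1 / w - w) / 2) = -(b / 2) * (1 / w - w - (1 / ws - ws)) := by
          rw [h3]; field_simp; ring
        rw [e5, abs_mul, abs_neg, abs_of_pos (show 0 < b / 2 by positivity)]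
        rw [le_div_iff₀ (by positivity)] at hη3
        have := mul_le_mul_of_nonneg_left h6 (show 0 ≤ b / 2 by positivity)
        linarith
      refine lt_of_le_of_lt (Complex.norm_le_abs_re_add_abs_im _) ?_
      simp only [sub_re, sub_im, hp1, sub_zero, abs_zero, add_zero]
      exact h7
    · refine ⟨_, Or.inr (Or.inl rfl), ?_⟩
      refine lt_of_le_of_lt (Complex.norm_le_abs_re_add_abs_im _) ?_
      simp only [sub_re, sub_im, sub_self, abs_zero, zero_add]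
      rw [← mul_sub, abs_mul, (sign_K he1).2, one_mul, abs_lt]
      constructor <;> linarith
    · refine ⟨_, Or.inr (Or.inr rfl), ?_⟩
      refine lt_of_le_of_lt (Complex.norm_le_abs_re_add_abs_im _) ?_
      simp only [sub_re, sub_im]
      rw [← mul_sub, abs_mul, (sign_K he2).2, one_mul, abs_sub_comm d0 d]
      have : a2 - (a1 + h) = -(h - (a2 - a1)) := by ring
      rw [this, abs_neg]
      linarith

end Pool.Agent.Lib.MP_62ba83_co
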