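import Pool.Agent.Lib.MP_62ba83_co.Isog

/-! A circle with its centre and an inverse pair; a line with two mirror pairs. -/

set_option autoImplicit false

namespace Pool.Agent.Lib.MP_62ba83_co

open Filter Topology Complex
open scoped ComplexConjugate

lemma huff (M b0 d0 : ℝ) (hb0 : 0 < b0) (hd0 : 0 < d0) :
    Ap ({p : ℂ | p.im = 0 ∧ |p.re| ≤ M} ∪ {p : ℂ | p.re = 0 ∧ (|p.im| = b0 ∨ |p.im| = d0)}) := by
  intro ε hε
  obtain ⟨b, Kb, hb1, hb2⟩ := K_near b0 hε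
  have hb : 0 < b := by linarith
  set Y := 2 * |M| / b with hY
  have hY0 : 0 ≤ Y := by positivity
  set η := min ε (min (1 / (2 * (Y + 1))) (ε / (b * (1 + 2 * (Y + 1) ^ 2)))) with hη
  have hη0 : 0 < η := lt_min hε (lt_min (by positivity) (by positivity))
  have hη1 : η ≤ ε := min_le_left _ _
  have hη2 : η ≤ 1 / (2 * (Y + 1)) := (min_le_right _ _).trans (min_le_left _ _)
  have hη3 : η ≤ ε / (b * (1 + 2 * (Y + 1) ^ 2)) := (min_le_right _ _).trans (min_le_right _ _)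
  obtain ⟨d, Kd, hd, hd1, H⟩ := param (b := b) (κ := 0) (e := 0) (d0 := d0) (T := Y + 1) (η := η)
    Kb (zero_mem _) (zero_mem _) hb (by simp) hd0 (by linarith) hη0
  have ka : ∀ {x c : ℝ}, c ∈ K → |x| = c → x ∈ K := fun {x c} hc h => by
    rcases abs_choice x with e | e
    · exact e ▸ h ▸ hc
    · exact neg_mem_iff.1 (e ▸ h ▸ hc)
  have mix : ∀ x y : ℂ, (x.im = 0 ∧ x.re ∈ K ∧ (∃ r ∈ K, x.re ^ 2 + b ^ 2 = r ^ 2) ∧
      ∃ r ∈ K, x.re ^ 2 + d ^ 2 = r ^ 2) → (y.re = 0 ∧ (|y.im| = b ∨ |y.im| = d)) →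
      ‖x - y‖ ∈ K := by
    rintro x y ⟨h1, -, ⟨r, Kr, hr⟩, s, Ks, hs⟩ ⟨h2, h3 | h3⟩
    · exact norm_K Kr (by rw [← hr, ← h3]; simp [h1, h2])
    · exact norm_K Ks (by rw [← hs, ← h3]; simp [h1, h2])
  refine ⟨{x | x.im = 0 ∧ x.re ∈ K ∧ (∃ r ∈ K, x.re ^ 2 + b ^ 2 = r ^ 2) ∧
    ∃ r ∈ K, x.re ^ 2 + d ^ 2 = r ^ 2} ∪ {y | y.re = 0 ∧ (|y.im| = b ∨ |y.im| = d)}, ?_, ?_⟩
  · rintro x (hx | hx) y (hy | hy)
    · exact norm_K (sub_mem hx.2.1 hy.2.1) (by simp [hx.1, hy.1])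
    · exact mix x y hx hy
    · rw [norm_sub_rev]; exact mix y x hy hx
    · exact norm_K (sub_mem (hx.2.elim (ka Kb) (ka Kd)) (hy.2.elim (ka Kb) (ka Kd)))
        (by simp [hx.1, hy.1])
  · have nr : ∀ (p : ℂ) (c0 c : ℝ), 0 < c0 → 0 < c → p.re = 0 → |p.im| = c0 → |c - c0| < ε →
        ∃ y : ℂ, y.re = 0 ∧ |y.im| = c ∧ ‖p - y‖ < ε := fun p c0 c h0 h1 h2 h3 h4 => by
      refine ⟨⟨0, p.im / c0 * c⟩, rfl, by
        simp [abs_mul, abs_div, h3, abs_of_pos h0, abs_of_pos h1, h0.ne'], ?_⟩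
      refine lt_of_le_of_lt (Complex.norm_le_abs_re_add_abs_im _) ?_
      have : p.im - p.im / c0 * c = p.im / c0 * (c0 - c) := by field_simp
      simpa [h2, this, abs_mul, abs_div, h3, abs_of_pos h0, h0.ne', abs_sub_comm c0] using h4
    rintro p (⟨hp1, hp2⟩ | ⟨h1, h2 | h2⟩)
    · have hy : |2 * p.re / b| ≤ Y := by
        rw [hY, abs_div, abs_of_pos hb, abs_mul, abs_two]
        apply div_le_div_of_nonneg_right _ hb.le
        linarith [le_abs_self M]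
      obtain ⟨ws, h1, h2, h3⟩ := g_range hy
      obtain ⟨w, Kw, s, Ks, hw, hs, hc, h4, h5⟩ := H ws h1 h2
      have k1 := div_mem (one_mem K) Kw
      have k2 := div_mem (one_mem K) Ks
      refine ⟨⟨b * (1 / w - w) / 2, 0⟩, Or.inl ⟨rfl, div_mem (mul_mem Kb (sub_mem k1 Kw)) K_two,
        ⟨_, div_mem (mul_mem Kb (add_mem k1 Kw)) K_two, by field_simp; ring⟩,
        _, div_mem (mul_mem Kd (add_mem Ks k2)) K_two, ?_⟩, ?_⟩
      · rw [show b * (1 / w - w) = d * (s - 1 / s) by linarith]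
        field_simp
        ring
      have h6 := w_est (by linarith) h1 h4 h5 hη2
      have h7 : |p.re - b * (1 / w - w) / 2| < ε := by
        have e5 : p.re - b * (1 / w - w) / 2 = -(b / 2) * (1 / w - w - (1 / ws - ws)) := by
          rw [h3]; field_simp; ring
        rw [e5, abs_mul, abs_neg, abs_of_pos (show 0 < b / 2 by positivity)]
        rw [le_div_iff₀ (by positivity)] at hη3
        have := mul_le_mul_of_nonneg_left h6 (show 0 ≤ b / 2 by positivity)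
        linarith
      refine lt_of_le_of_lt (Complex.norm_le_abs_re_add_abs_im _) ?_
      simpa only [sub_re, sub_im, hp1, sub_zero, abs_zero, add_zero] using h7
    · obtain ⟨y, e1, e2, e3⟩ := nr p b0 b hb0 hb h1 h2 (abs_lt.2 ⟨by linarith, by linarith⟩)
      exact ⟨y, Or.inr ⟨e1, .inl e2⟩, e3⟩
    · obtain ⟨y, e1, e2, e3⟩ := nr p d0 d hd0 hd h1 h2 (hd1.trans_le hη1)
      exact ⟨y, Or.inr ⟨e1, .inr e2⟩, e3⟩

lemma inv_circ {ρ : ℝ} (hρ : 0 < ρ) {p : ℂ} (h1 : p ∈ Metric.sphere (ρ * I) ρ) (hp : p ≠ 0) :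
    (p⁻¹).im = -(1 / (2 * ρ)) := by
  have h3 : ‖p - ρ * I‖ ^ 2 = ρ ^ 2 := by rw [← dist_eq_norm, Metric.mem_sphere.1 h1]
  rw [Complex.sq_norm, normSq_apply] at h3
  simp only [sub_re, sub_im, mul_re, mul_im, ofReal_re, ofReal_im, I_re, I_im] at h3
  have h4 : normSq p = 2 * ρ * p.im := by rw [normSq_apply]; linear_combination h3
  have h5 := normSq_pos.2 hp
  have h6 : p.im ≠ 0 := by intro h; rw [h] at h4; linarith
  rw [inv_im, h4]
  field_simp

lemma pair_core {ρ q : ℝ} (hρ : 0 < ρ) (q0 : 0 < q) (q1 : q < 1) :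
    Ap (Metric.sphere (ρ * I) ρ ∪ {ρ * I, (ρ * (1 + q) : ℝ) * I, (ρ * (1 + q⁻¹) : ℝ) * I}) := by
  apply Ap.of_near
  intro ε hε
  set b := 1 / (2 * ρ) with hb
  have b0 : 0 < b := by positivity
  have d0 : 0 < b * (1 - q) / (1 + q) := div_pos (mul_pos b0 (by linarith)) (by linarith)
  have hT : Ap ({w : ℂ | w.im = -b ∧ |w.re| ≤ 1 / ε} ∪
      {w : ℂ | w.re = 0 ∧ (|w.im + b| = b ∨ |w.im + b| = b * (1 - q) / (1 + q))}) := by
    refine (huff (1 / ε) b _ b0 d0).iso 1 (-b * I) norm_one ?_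
    rintro p (⟨h1, h2⟩ | ⟨h1, h2⟩)
    · exact ⟨p + b * I, Or.inl ⟨by simp [h1], by simpa using h2⟩, by ring⟩
    · exact ⟨p + b * I, Or.inr ⟨by simp [h1], by simpa using h2⟩, by ring⟩
  have key : ∀ c : ℝ, 0 < c → c ≤ ρ * (1 + q⁻¹) →
      (|-c⁻¹ + b| = b ∨ |-c⁻¹ + b| = b * (1 - q) / (1 + q)) → ∃ w ∈ ({w : ℂ | w.im = -b ∧
      |w.re| ≤ 1 / ε} ∪ {w : ℂ | w.re = 0 ∧ (|w.im + b| = b ∨ |w.im + b| = b * (1 - q) / (1 + q))}),
      min b (ρ * (1 + q⁻¹))⁻¹ ≤ ‖w‖ ∧ (c * I : ℂ) = w⁻¹ := fun c c0 c1 h =>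
    ⟨(c * I : ℂ)⁻¹, Or.inr ⟨by simp [← ofReal_inv], by simpa [← ofReal_inv] using h⟩,
      (min_le_right _ _).trans (by simpa [abs_of_pos c0] using inv_anti₀ c0 c1), (inv_inv _).symm⟩
  have qi : 1 < q⁻¹ := (one_lt_inv₀ q0).2 q1
  refine ⟨{p ∈ Metric.sphere (ρ * I) ρ | ε ≤ ‖p‖} ∪
    {ρ * I, (ρ * (1 + q) : ℝ) * I, (ρ * (1 + q⁻¹) : ℝ) * I, 0}, hT.inv (Or.inr ⟨rfl, .inl (by
      simp [b0.le])⟩) (m := min b (ρ * (1 + q⁻¹))⁻¹) (lt_min b0 (by positivity)) ?_, ?_⟩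
  · rintro p (⟨h1, h2⟩ | rfl | rfl | rfl | rfl)
    · have h7 := inv_circ hρ h1 (norm_pos_iff.1 (hε.trans_le h2))
      refine .inr ⟨p⁻¹, Or.inl ⟨h7, (abs_re_le_norm _).trans ?_⟩, ?_, (inv_inv p).symm⟩
      · rw [norm_inv, ← one_div]
        exact one_div_le_one_div_of_le hε h2
      · refine (min_le_left _ _).trans (le_trans ?_ (abs_im_le_norm _))
        rw [h7, abs_neg]; exact le_abs_self _
    · refine .inr (key ρ hρ (by nlinarith) (.inl ?_))
      rw [show -ρ⁻¹ + b = -b by rw [hb]; field_simp; ring, abs_neg, abs_of_pos b0]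
    · refine .inr (key _ (by positivity) (by nlinarith) (.inr ?_))
      rw [show -(ρ * (1 + q))⁻¹ + b = -(b * (1 - q) / (1 + q)) by rw [hb]; field_simp; ring,
        abs_neg, abs_of_pos d0]
    · refine .inr (key _ (by positivity) le_rfl (.inr ?_))
      rw [show -(ρ * (1 + q⁻¹))⁻¹ + b = b * (1 - q) / (1 + q) by rw [hb]; field_simp; ring,
        abs_of_pos d0]
    · exact .inl rfl
  · rintro p (hp | hp)
    · by_cases h : ε ≤ ‖p‖
      · exact ⟨p, Or.inl ⟨hp, h⟩, by simpa using hε⟩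
      · exact ⟨0, Or.inr (by simp), by simpa using h⟩
    · exact ⟨p, Or.inr (by simp only [Set.mem_insert_iff, Set.mem_singleton_iff] at hp ⊢; tauto),
        by simpa using hε⟩

lemma pair_le {O P Q : ℂ} {ρ : ℝ} (hρ : 0 < ρ) (h : (P - O) * conj (Q - O) = ρ ^ 2)
    (hP : ‖P - O‖ ≤ ρ) : Ap (Metric.sphere O ρ ∪ {O, P, Q}) := by
  have r0 : (ρ : ℂ) ≠ 0 := ofReal_ne_zero.2 hρ.ne'
  have p0 : P - O ≠ 0 := fun e => pow_ne_zero 2 r0 (by rw [← h, e, zero_mul])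
  have n0 := norm_pos_iff.2 p0
  have n1 : (‖P - O‖ : ℂ) ≠ 0 := ofReal_ne_zero.2 n0.ne'
  have eQ : Q - O = ρ ^ 2 / ‖P - O‖ ^ 2 * (P - O) := by
    have := congrArg conj h
    rw [map_mul, conj_conj, map_pow, conj_ofReal] at this
    rw [← this, ← conj_mul' (P - O), mul_comm (conj _) (Q - O)]
    have := conj_ne p0
    field_simp
  obtain h1 | h1 := hP.eq_or_lt
  · refine (circle_one O O ρ).mono ?_
    have : P ∈ Metric.sphere O ρ := mem_sphere_iff_norm.2 h1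
    rw [h1, div_self (pow_ne_zero 2 r0), one_mul, sub_left_inj] at eQ
    rintro p (hp | rfl | rfl | rfl)
    exacts [.inl hp, .inr rfl, .inl this, .inl (eQ ▸ this)]
  set ω := (P - O) / (‖P - O‖ * I) with hω
  have w1 : ‖ω‖ = 1 := by simp [hω, n0.ne']
  have w0 : ω ≠ 0 := norm_ne_zero_iff.1 (by simp [w1])
  refine (pair_core hρ (div_pos n0 hρ) ((div_lt_one hρ).2 h1)).iso ω (O - ω * (ρ * I)) w1 ?_
  rintro p (hp | rfl | rfl | rfl)
  · refine ⟨(p - O) / ω + ρ * I, .inl ?_, by field_simp; ring⟩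
    rw [mem_sphere_iff_norm] at hp ⊢
    simp [w1, hp]
  · exact ⟨_, .inr (.inl rfl), by ring⟩
  · refine ⟨_, .inr (.inr (.inl rfl)), ?_⟩
    rw [hω]
    push_cast
    field_simp
    ring
  · refine ⟨_, .inr (.inr (.inr rfl)), ?_⟩
    rw [hω, eq_add_of_sub_eq eQ]
    push_cast
    field_simp
    ring

theorem pair_ap {O P Q : ℂ} {ρ : ℝ} (hρ : 0 < ρ) (h : (P - O) * conj (Q - O) = ρ ^ 2) :
    Ap (Metric.sphere O ρ ∪ {O, P, Q}) := by
  by_cases hP : ‖P - O‖ ≤ ρ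
  · exact pair_le hρ h hP
  have h1 := congrArg norm h
  have h2 := congrArg conj h
  rw [map_mul, conj_conj, map_pow, conj_ofReal, mul_comm] at h2
  rw [norm_mul, norm_conj, norm_pow, norm_real, Real.norm_of_nonneg hρ.le] at h1
  rw [Set.pair_comm]
  exact pair_le hρ h2 (by nlinarith [norm_nonneg (Q - O)])

theorem inverse_ap (O P : ℂ) {ρ : ℝ} (hρ : 0 < ρ) :
    Ap (Metric.sphere O ρ ∪ {O, P, EuclideanGeometry.inversion O ρ P}) := by
  by_cases h : P = O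
  · simpa [h] using circle_one O O ρ
  refine pair_ap hρ ?_
  have n1 : (‖P - O‖ : ℂ) ≠ 0 := ofReal_ne_zero.2 (norm_ne_zero_iff.2 (sub_ne_zero.2 h))
  simp only [EuclideanGeometry.inversion, vsub_eq_sub, vadd_eq_add, add_sub_cancel_right, real_smul,
    map_mul, conj_ofReal, dist_eq_norm]
  rw [mul_left_comm, mul_conj']
  push_cast
  field_simp

lemma mirror_core (M : ℝ) {P Q : ℂ} (hP : P.im < 0) (hQ : Q.re ≠ P.re) :
    Ap ({p : ℂ | p.im = 0 ∧ |p.re| ≤ M} ∪ {P, conj P, Q, conj Q}) := by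
  set ρ := -(1 / (2 * P.im)) with hρ
  have r0 : 0 < ρ := neg_pos.2 (div_neg_of_pos_of_neg one_pos (by linarith))
  have i0 : (P.im : ℂ) ≠ 0 := ofReal_ne_zero.2 hP.ne
  have eP : P - conj P = 2 * P.im * I := by rw [sub_conj]; push_cast; ring
  have q0 : Q - conj P ≠ 0 := fun e => hQ (by simpa [sub_eq_zero] using congrArg re e)
  have q1 : Q - P ≠ 0 := fun e => hQ (by rw [sub_eq_zero.1 e])
  have q2 : conj Q - conj P ≠ 0 := by rw [← map_sub]; exact conj_ne q1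
  have T := pair_ap (O := ρ * I) (P := (Q - conj P)⁻¹) (Q := (conj Q - conj P)⁻¹) r0 (by
    simp only [map_sub, map_inv₀, conj_conj, map_mul, conj_ofReal, conj_I, hρ]
    rw [show conj P = P - 2 * P.im * I by rw [← eP]; ring] at q0 ⊢
    push_cast
    field_simp
    linear_combination (4 * P.im ^ 2 - (Q - P) ^ 2 - 2 * P.im * I * (Q - P)) * I_sq)
  set m := (|M| + ‖P‖ + ‖Q‖ + ‖P‖ + 1)⁻¹ with hm
  have key : ∀ p : ℂ, p ≠ 0 → ‖p‖ ≤ |M| + ‖P‖ + ‖Q‖ + ‖P‖ → m ≤ ‖p⁻¹‖ := fun p h0 h => by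
    rw [norm_inv]
    exact inv_anti₀ (norm_pos_iff.2 h0) (by linarith)
  have S : Ap ((· - conj P) '' ({p : ℂ | p.im = 0 ∧ |p.re| ≤ M} ∪ {P, conj P, Q, conj Q})) := by
    refine T.inv (.inl (by simp [r0.le])) (m := m) (by positivity) ?_
    have n := fun p => (norm_sub_le p (conj P)).trans_eq (congrArg _ (norm_conj P))
    have := abs_nonneg M
    have := norm_nonneg P
    have := norm_nonneg Q
    rintro _ ⟨p, ⟨h1, h2⟩ | rfl | rfl | rfl | rfl, rfl⟩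
    · have p0 : p - conj P ≠ 0 := fun e => hP.ne (by simpa [h1] using congrArg im e)
      have := (Complex.norm_le_abs_re_add_abs_im p).trans_eq (by rw [h1, abs_zero, add_zero])
      refine .inr ⟨(p - conj P)⁻¹, .inl ?_, key _ p0 (by linarith [n p, le_abs_self M]),
        (inv_inv _).symm⟩
      have e : (p - conj P)⁻¹ - ρ * I = ρ * (-I) * (conj (p - conj P) / (p - conj P)) := by
        rw [map_sub, conj_conj, conj_eq_iff_im.2 h1, hρ]
        rw [show conj P = P - 2 * P.im * I by rw [← eP]; ring] at p0 ⊢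
        push_cast
        field_simp
        linear_combination (2 * P.im) * I_sq
      rw [mem_sphere_iff_norm, e]
      simp [r0.le, norm_ne_zero_iff.2 p0, -map_sub]
    · refine .inr ⟨(p - conj p)⁻¹, .inr (.inl ?_), key _ (by simp [eP, hP.ne]) (by linarith [n p]),
        (inv_inv _).symm⟩
      rw [eP, hρ]
      push_cast
      field_simp
      simp
    · exact .inl (sub_self _)
    · exact .inr ⟨_, .inr (.inr (.inl rfl)), key _ q0 (by linarith [n p]), (inv_inv _).symm⟩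
    · exact .inr ⟨_, .inr (.inr (.inr rfl)), key _ q2 (by linarith [n (conj Q), norm_conj Q]),
        (inv_inv _).symm⟩
  exact S.iso 1 (conj P) norm_one fun p hp => ⟨_, ⟨p, hp, rfl⟩, by ring⟩

lemma mirror_real (M : ℝ) (P Q : ℂ) :
    Ap ({p : ℂ | p.im = 0 ∧ |p.re| ≤ M} ∪ {P, conj P, Q, conj Q}) := by
  wlog h : P.im ≤ 0 generalizing P
  · simpa only [conj_conj, Set.insert_comm P] using this (conj P) (by simp; linarith)
  apply Ap.of_near
  intro ε hε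
  obtain ⟨x, h1, h2, -⟩ := exists_avoid Q.re P.re P.re hε
  refine ⟨_, mirror_core M (P := P - (ε / 2 : ℝ) * I) (Q := ⟨x, Q.im⟩) (by simp; linarith)
    (by simpa using h2), ?_⟩
  have e1 : ‖P - (P - (ε / 2 : ℝ) * I)‖ < ε := by simp [abs_of_pos hε, hε]
  have e2 : ‖Q - ⟨x, Q.im⟩‖ < ε :=
    (Complex.norm_le_abs_re_add_abs_im _).trans_lt (by simpa using h1)
  rintro p (hp | rfl | rfl | rfl | rfl)
  · exact ⟨p, .inl hp, by simpa using hε⟩
  · exact ⟨_, .inr (.inl rfl), e1⟩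
  · exact ⟨_, .inr (.inr (.inl rfl)), by rwa [← map_sub, norm_conj]⟩
  · exact ⟨_, .inr (.inr (.inr (.inl rfl))), e2⟩
  · exact ⟨_, .inr (.inr (.inr (.inr rfl))), by rwa [← map_sub, norm_conj]⟩

lemma eq_or_conj {u v : ℂ} {c : ℝ} (hc : c ≠ 0) (h1 : ‖v‖ = ‖u‖) (h2 : ‖v - c‖ = ‖u - c‖) :
    v = u ∨ v = conj u := by
  have e1 : normSq v = normSq u := by rw [← Complex.sq_norm, ← Complex.sq_norm, h1]
  have e2 : normSq (v - c) = normSq (u - c) := by rw [← Complex.sq_norm, ← Complex.sq_norm, h2]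
  simp only [normSq_apply, sub_re, sub_im, ofReal_re, ofReal_im] at e1 e2
  have e3 : v.re = u.re := mul_left_cancel₀ hc (by linarith)
  rcases mul_self_eq_mul_self_iff.1 (show v.im * v.im = u.im * u.im by
    rw [e3] at e1; linarith) with h | h
  exacts [.inl (Complex.ext e3 h), .inr (Complex.ext e3 h)]

theorem mirror_ap {A B P P' Q Q' : ℂ} {S : Set ℂ} (hAB : A ≠ B) (hS : S ⊆ line[ℝ, A, B])
    (hb : Bornology.IsBounded S) (h1 : dist P' A = dist P A) (h2 : dist P' B = dist P B)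
    (h3 : dist Q' A = dist Q A) (h4 : dist Q' B = dist Q B) : Ap (S ∪ {P, P', Q, Q'}) := by
  obtain ⟨M, hM⟩ := (Metric.isBounded_iff_subset_closedBall A).1 hb
  have n0 := norm_ne_zero_iff.2 (sub_ne_zero.2 hAB.symm)
  have n1 := ofReal_ne_zero.2 n0
  set ω := (B - A) / ‖B - A‖ with hω
  have w1 : ‖ω‖ = 1 := by simp [hω, n0]
  have w0 : ω ≠ 0 := norm_ne_zero_iff.1 (by simp [w1])
  have k : ∀ {X X' : ℂ}, dist X' A = dist X A → dist X' B = dist X B →
      (X' - A) / ω = (X - A) / ω ∨ (X' - A) / ω = conj ((X - A) / ω) := fun {X X'} a b => by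
    have e : ∀ Z, (Z - A) / ω - ‖B - A‖ = (Z - B) / ω := fun Z => by
      have := sub_ne_zero.2 hAB.symm
      rw [hω]; field_simp; ring
    refine eq_or_conj n0 ?_ ?_
    · simpa [w1, dist_eq_norm] using a
    · simpa [e, w1, dist_eq_norm] using b
  refine (mirror_real M ((P - A) / ω) ((Q - A) / ω)).iso ω A w1 fun p hp =>
    ⟨(p - A) / ω, ?_, by field_simp; ring⟩
  rcases hp with hp | rfl | rfl | rfl | rfl
  · obtain ⟨t, rfl⟩ := mem_affineSpan_pair_iff_exists_lineMap_eq.1 (hS hp)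
    refine .inl ⟨?_, (abs_re_le_norm _).trans (by simpa [w1, dist_eq_norm] using hM hp)⟩
    have := sub_ne_zero.2 hAB.symm
    rw [show (AffineMap.lineMap A B t - A) / ω = (t * ‖B - A‖ : ℝ) by
      simp only [AffineMap.lineMap_apply, hω, vsub_eq_sub, vadd_eq_add, real_smul]
      push_cast
      field_simp
      ring, ofReal_im]
  · exact .inr (.inl rfl)
  · exact .inr ((k h1 h2).imp id .inl)
  · exact .inr (.inr (.inr (.inl rfl)))
  · exact .inr (.inr (.inr (k h3 h4)))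

end Pool.Agent.Lib.MP_62ba83_co
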