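import Pool.Agent.Lib.MP_62ba83_co.Dense

set_option autoImplicit false

namespace Pool.Agent.Lib.MP_62ba83_co

open Filter Topology

lemma K_ev {x : ℝ} {P : ℝ → Prop} (h : ∀ᶠ y in 𝓝 x, P y) : ∃ y ∈ K, P y := by
  obtain ⟨ε, hε, h2⟩ := Metric.eventually_nhds_iff.1 h
  obtain ⟨y, hy, h3, h4⟩ := K_near x hε
  exact ⟨y, hy, h2 (by rw [Real.dist_eq, abs_lt]; constructor <;> linarith)⟩

lemma g_surj (y : ℝ) : ∃ u : ℝ, 0 < u ∧ u - 1 / u = y := by
  have h1 : 0 ≤ y ^ 2 + 4 := by positivity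
  have h2 := Real.sq_sqrt h1
  have h3 : |y| < √(y ^ 2 + 4) := by
    rw [← Real.sqrt_sq_eq_abs]; exact Real.sqrt_lt_sqrt (by positivity) (by linarith)
  have h4 : 0 < (y + √(y ^ 2 + 4)) / 2 := by linarith [neg_abs_le y]
  refine ⟨(y + √(y ^ 2 + 4)) / 2, h4, ?_⟩
  have h5 : y + √(y ^ 2 + 4) ≠ 0 := by linarith
  field_simp
  linear_combination h2

lemma g_cont {u : ℝ} (hu : 0 < u) : ContinuousAt (fun x : ℝ => x - 1 / x) u :=
  continuousAt_id.sub (continuousAt_const.div continuousAt_id hu.ne')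

lemma g_near (y : ℝ) {ε : ℝ} (hε : 0 < ε) : ∃ r ∈ K, 0 < r ∧ y - ε < r - 1 / r ∧ r - 1 / r < y + ε := by
  obtain ⟨u, hu, hy⟩ := g_surj y
  apply K_ev (x := u)
  refine (eventually_gt_nhds hu).and (Eventually.and ?_ ?_)
  · exact continuousAt_const.eventually_lt (g_cont hu) (by linarith)
  · exact (g_cont hu).eventually_lt continuousAt_const (by linarith)

lemma lt_of_g {σ ε : ℝ} (hσ : 0 < σ) (hε : 0 < ε) (h : σ - 1 / σ < -(1 / ε)) : σ < ε := by
  have : 1 / ε < 1 / σ := by linarith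
  exact lt_of_one_div_lt_one_div hε this

/-- choice of the second height so that good parameters are dense -/
lemma param {b κ e d0 T η : ℝ} (Kb : b ∈ K) (Kκ : κ ∈ K) (Ke : e ∈ K) (hb : 0 < b) (he : |e| ≤ 1)
    (hd0 : 0 < d0) (hT : 0 < T) (hη : 0 < η) :
    ∃ d ∈ K, 0 < d ∧ |d - d0| < η ∧ ∀ ws, 1 / T ≤ ws → ws ≤ T →
      ∃ w ∈ K, ∃ s ∈ K, 0 < w ∧ 0 < s ∧ b * (1 / w - w) - d * (s - 1 / s) = 2 * ((b - e * d) * κ) ∧
        ws - η ≤ w ∧ w ≤ ws := by
  set β := min b (d0 / 2) with hβ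
  set B := b + 2 * d0 + (b + 2 * d0) * |κ| with hB
  have hβ0 : 0 < β := lt_min hb (by linarith)
  have hk0 : 0 ≤ (b + 2 * d0) * |κ| := by positivity
  have hβb : β ≤ b := min_le_left _ _
  have hβd : β ≤ d0 / 2 := min_le_right _ _
  obtain ⟨ε, hε, H⟩ := sweep (β := β) (B := B) (T := T) (η := η) hβ0 (by linarith) hT hη
  set A := 2 * |κ| + 1 / ε with hA
  have hA0 : 0 < A := by positivity
  obtain ⟨r, Kr, hr, -, hr2⟩ := g_near (min (2 * κ - A * d0 / b) (-(1 / ε)) - 1) one_pos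
  have hr3 : r - 1 / r < 2 * κ - A * d0 / b := by linarith [min_le_left (2 * κ - A * d0 / b) (-(1 / ε))]
  have hr4 : r < ε := lt_of_g hr hε (by linarith [min_le_right (2 * κ - A * d0 / b) (-(1 / ε))])
  set z := r - 1 / r - 2 * κ with hz
  have hz1 : b / d0 * z < -A := by
    have : z < -(A * d0 / b) := by linarith
    have h2 := mul_lt_mul_of_pos_left this (show 0 < b / d0 by positivity)
    have h3 : b / d0 * -(A * d0 / b) = -A := by field_simp
    linarith
  have hz0 : z ≠ 0 := by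
    intro h0; rw [h0] at hz1; linarith
  obtain ⟨u, hu, hu2⟩ := g_surj (2 * e * κ + b / d0 * z)
  have heκ : e * κ ≤ |κ| := by
    calc e * κ ≤ |e * κ| := le_abs_self _
      _ = |e| * |κ| := abs_mul _ _
      _ ≤ 1 * |κ| := mul_le_mul_of_nonneg_right he (abs_nonneg _)
      _ = |κ| := one_mul _
  have hu3 : u < ε := lt_of_g hu hε (by linarith)
  have hden : u - 1 / u - 2 * e * κ ≠ 0 := by linarith
  have hc1 : ContinuousAt (fun x : ℝ => x - 1 / x - 2 * e * κ) u := (g_cont hu).sub continuousAt_const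
  have hc2 : ContinuousAt (fun x : ℝ => |b * z / (x - 1 / x - 2 * e * κ) - d0|) u :=
    ((continuousAt_const.div hc1 hden).sub continuousAt_const).abs
  have hval : b * z / (u - 1 / u - 2 * e * κ) - d0 = 0 := by
    have : u - 1 / u - 2 * e * κ = b / d0 * z := by linarith
    rw [this]; field_simp; ring
  obtain ⟨σ, Kσ, hσ, hσ2, hσ3, hσ4⟩ := K_ev (x := u)
    (P := fun x => 0 < x ∧ x < ε ∧ x - 1 / x - 2 * e * κ ≠ 0 ∧
      |b * z / (x - 1 / x - 2 * e * κ) - d0| < min η (d0 / 2))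
    ((eventually_gt_nhds hu).and ((eventually_lt_nhds hu3).and ((hc1.eventually_ne hden).and
      (hc2.eventually_lt continuousAt_const (by
        simp only [hval, abs_zero]; exact lt_min hη (by linarith))))))
  set d := b * z / (σ - 1 / σ - 2 * e * κ) with hd
  have Kd : d ∈ K := by
    rw [hd, hz]
    exact div_mem (mul_mem Kb (sub_mem (sub_mem Kr (div_mem (one_mem _) Kr)) (mul_mem K_two Kκ)))
      (sub_mem (sub_mem Kσ (div_mem (one_mem _) Kσ)) (mul_mem (mul_mem K_two Ke) Kκ))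
  have hd1 := abs_lt.1 (hσ4.trans_le (min_le_right _ _))
  have hdpos : 0 < d := by linarith
  refine ⟨d, Kd, hdpos, hσ4.trans_le (min_le_left _ _), ?_⟩
  intro ws h1 h2
  have hR : OnC b d ((b - e * d) * κ) σ r := by
    unfold OnC
    have : d * (σ - 1 / σ - 2 * e * κ) = b * z := by rw [hd]; exact div_mul_cancel₀ _ hσ3
    rw [hz] at this
    linear_combination (-1 : ℝ) * this
  have hh : |(b - e * d) * κ| ≤ B := by
    rw [abs_mul]
    have h3 : |e * d| ≤ 2 * d0 := by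
      rw [abs_mul, abs_of_pos hdpos]
      have := mul_le_mul_of_nonneg_right he hdpos.le
      linarith
    have h4 : |b - e * d| ≤ b + 2 * d0 := by
      have := abs_sub b (e * d)
      rw [abs_of_pos hb] at this
      linarith
    have := mul_le_mul_of_nonneg_right h4 (abs_nonneg κ)
    linarith
  obtain ⟨s, Ks, t, Kt, hs, ht, hP, h3, h4⟩ := H b d _ σ r hβb (by linarith) (by linarith)
    (by linarith) hh hσ hσ2 hr hr4 hR Kb Kd Kσ Kr ws h1 h2
  refine ⟨1 / t, div_mem (one_mem _) Kt, s, Ks, by positivity, hs, ?_, h3, h4⟩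
  unfold OnC at hP
  rw [one_div_one_div]
  exact hP

end Pool.Agent.Lib.MP_62ba83_co
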