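import Mathlib

set_option autoImplicit false

namespace Pool.Agent.Lib.MP_62ba83_co

open Filter Topology

/-- the rational numbers as a subfield of the reals -/
noncomputable def K : Subfield ℝ := (Rat.castHom ℝ).fieldRange

lemma mem_K {x : ℝ} : x ∈ K ↔ ∃ q : ℚ, x = q := by
  simp only [K, RingHom.mem_fieldRange, Rat.coe_castHom]
  exact ⟨fun ⟨q, h⟩ => ⟨q, h.symm⟩, fun ⟨q, h⟩ => ⟨q, h.symm⟩⟩

lemma K_two : (2 : ℝ) ∈ K := mem_K.2 ⟨2, by norm_num⟩

lemma K_abs {x : ℝ} (h : x ∈ K) : |x| ∈ K := by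
  rcases abs_choice x with h1 | h1 <;> rw [h1]
  · exact h
  · exact neg_mem h

lemma K_near (x : ℝ) {ε : ℝ} (h : 0 < ε) : ∃ y ∈ K, x < y ∧ y < x + ε := by
  obtain ⟨q, h1, h2⟩ := exists_rat_btwn (show x < x + ε by linarith)
  exact ⟨q, mem_K.2 ⟨q, rfl⟩, h1, h2⟩

/-- the curve -/
def OnC (b d h s t : ℝ) : Prop := b * (t - 1 / t) - d * (s - 1 / s) = 2 * h

lemma third_root {L c2 c1 c0 p q z : ℝ} (hpq : p ≠ q) (hp : p ≠ 0) (hq : q ≠ 0)
    (h1 : L * p ^ 3 + c2 * p ^ 2 + c1 * p + c0 = 0)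
    (h2 : L * q ^ 3 + c2 * q ^ 2 + c1 * q + c0 = 0)
    (h3 : L * p * q * z = -c0) : L * z ^ 3 + c2 * z ^ 2 + c1 * z + c0 = 0 := by
  have hd : p - q ≠ 0 := sub_ne_zero.2 hpq
  have e2 : c2 = -L * (p + q + z) := by
    have : (p - q) * (p * q) * (c2 + L * (p + q + z)) = 0 := by
      linear_combination q * h1 - p * h2 + (p - q) * h3
    have h4 : (p - q) * (p * q) ≠ 0 := mul_ne_zero hd (mul_ne_zero hp hq)
    have := (mul_eq_zero.1 this).resolve_left h4
    linarith
  have e1 : c1 = L * (p * q + p * z + q * z) := by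
    have : (p - q) * (c1 - L * (p * q + p * z + q * z)) = 0 := by
      rw [e2] at h1 h2
      linear_combination h1 - h2
    have := (mul_eq_zero.1 this).resolve_left hd
    linarith
  rw [e2, e1]
  linear_combination h3

/-- the algebraic translation step -/
lemma step_alg {b d h σ r s t : ℝ} (hb : 0 < b) (hd : 0 < d) (hσ : 0 < σ) (hr : 0 < r)
    (hs : σ < s) (ht : 0 < t) (hR : OnC b d h σ r) (hP : OnC b d h s t)
    (hN : 0 < b * (1 + r * t) - d * r * (s - σ))
    (Kb : b ∈ K) (Kd : d ∈ K) (Kσ : σ ∈ K) (Kr : r ∈ K) (Ks : s ∈ K) (Kt : t ∈ K) :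
    ∃ s' ∈ K, ∃ t' ∈ K, 0 < s' ∧ 0 < t' ∧ OnC b d h s' t' ∧
      1 / t' = b * (s + σ * r * t) * (1 + r * t) /
        ((s - σ) * (b * (1 + r * t) - d * r * (s - σ)) * t) := by
  have hs0 : 0 < s := hσ.trans hs
  have hsσ : 0 < s - σ := sub_pos.2 hs
  have hrt : 0 < 1 + r * t := by positivity
  set N := b * (1 + r * t) - d * r * (s - σ) with hNdef
  set w := b * (s + σ * r * t) * (1 + r * t) / ((s - σ) * N * t) with hw
  have hw0 : 0 < w := by positivity
  set m := r * (s - σ) / (1 + r * t) with hm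
  have KN : N ∈ K := by
    rw [hNdef]
    exact sub_mem (mul_mem Kb (add_mem (one_mem _) (mul_mem Kr Kt)))
      (mul_mem (mul_mem Kd Kr) (sub_mem Ks Kσ))
  have Kw : w ∈ K := by
    rw [hw]
    exact div_mem (mul_mem (mul_mem Kb (add_mem Ks (mul_mem (mul_mem Kσ Kr) Kt)))
      (add_mem (one_mem _) (mul_mem Kr Kt))) (mul_mem (mul_mem (sub_mem Ks Kσ) KN) Kt)
  have Km : m ∈ K := by
    rw [hm]
    exact div_mem (mul_mem Kr (sub_mem Ks Kσ)) (add_mem (one_mem _) (mul_mem Kr Kt))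
  set k := s - m * t with hk
  have hP' : s * t * (b * t - d * s - 2 * h) - b * s + d * t = 0 := by
    unfold OnC at hP
    field_simp at hP
    linear_combination hP
  have hR' : σ * (-1 / r) * (b * (-1 / r) - d * σ - 2 * h) - b * σ + d * (-1 / r) = 0 := by
    unfold OnC at hR
    field_simp at hR ⊢
    linear_combination (-1 : ℝ) * hR
  have hσm : σ = k + m * (-1 / r) := by
    rw [hk, hm]; field_simp; ring
  have hsm : s = k + m * t := by rw [hk]; ring
  have key := @third_root (m * (b - d * m)) (k * (b - d * m) - m * (d * k + 2 * h))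
    (-(k * (d * k + 2 * h)) - b * m + d) (-(b * k)) t (-1 / r) (-w)
    (by
      have : -1 / r < 0 := by rw [neg_div]; exact neg_neg_of_pos (by positivity)
      exact ne_of_gt (this.trans ht))
    ht.ne' (by rw [neg_div]; exact neg_ne_zero.2 (by positivity))
    (by rw [hsm] at hP'; linear_combination hP')
    (by rw [hσm] at hR'; linear_combination hR')
    (by
      have e1 : b - d * m = N / (1 + r * t) := by
        rw [hm, hNdef]; field_simp
      have e2 : k = (s + σ * r * t) / (1 + r * t) := by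
        rw [hk, hm]; field_simp; ring
      rw [e1, e2, hw, hm]
      field_simp)
  set s1 := k + m * (-w) with hs1
  have Ks1 : s1 ∈ K := by
    rw [hs1, hk]
    exact add_mem (sub_mem Ks (mul_mem Km Kt)) (mul_mem Km (neg_mem Kw))
  have key2 : s1 * (-w) * (b * (-w) - d * s1 - 2 * h) - b * s1 + d * (-w) = 0 := by
    rw [hs1]; linear_combination key
  have hs10 : s1 ≠ 0 := by
    intro h0
    rw [h0] at key2
    have : d * w = 0 := by linarith
    exact (mul_pos hd hw0).ne' this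
  have hC : b * (1 / w - 1 / (1 / w)) - d * (s1 - 1 / s1) = 2 * h := by
    field_simp
    linear_combination (-1 : ℝ) * key2
  rcases lt_or_gt_of_ne hs10 with hneg | hpos
  · refine ⟨-1 / s1, div_mem (neg_mem (one_mem _)) Ks1, 1 / w, div_mem (one_mem _) Kw,
      by rw [neg_div, ← div_neg]; exact div_pos one_pos (neg_pos.2 hneg), by positivity, ?_, by simp⟩
    unfold OnC
    rw [← hC]
    field_simp
    ring
  · exact ⟨s1, Ks1, 1 / w, div_mem (one_mem _) Kw, hpos, by positivity, hC, by simp⟩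

/-- starting point far to the right -/
lemma start_alg {b d h σ r : ℝ} (hb : 0 < b) (hd : 0 < d) (hσ : 0 < σ) (hr : 0 < r)
    (hR : OnC b d h σ r) :
    OnC b d h ((b + d * σ * r) / (r * (d + b * σ * r))) ((d + b * σ * r) / (σ * (b + d * σ * r))) := by
  unfold OnC at hR ⊢
  rw [← hR]
  field_simp
  ring

lemma discrete_ivt {G : Set ℝ} {w0 ws δ η : ℝ} (hδ : 0 < δ) (h0 : w0 ∈ G) (h1 : w0 ≤ ws)
    (hstep : ∀ w ∈ G, w0 ≤ w → w ≤ ws → ∃ w' ∈ G, w + δ ≤ w' ∧ w' ≤ w + η) :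
    ∃ w ∈ G, ws - η ≤ w ∧ w ≤ ws := by
  set S := {w ∈ G | w0 ≤ w ∧ w ≤ ws} with hS
  have hne : S.Nonempty := ⟨w0, h0, le_rfl, h1⟩
  have hbd : BddAbove S := ⟨ws, fun w hw => hw.2.2⟩
  obtain ⟨w, hw, hw2⟩ := exists_lt_of_lt_csSup hne (show sSup S - δ < sSup S by linarith)
  obtain ⟨w', hG, h2, h3⟩ := hstep w hw.1 hw.2.1 hw.2.2
  refine ⟨w, hw.1, ?_, hw.2.2⟩
  by_contra hc
  push Not at hc
  have : w' ∈ S := ⟨hG, by linarith [hw.2.1], by linarith⟩
  have := le_csSup hbd this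
  linarith

end Pool.Agent.Lib.MP_62ba83_co
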